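import Mathlib

open MeasureTheory Metric Set Filter Topology

namespace Pool.Agent.H959.Fock

variable {n : ℕ}

/-- `|z|^2 = |z_1|^2 + ... + |z_n|^2`. -/
noncomputable def nsq (z : Fin n → ℂ) : ℝ := ∑ k, ‖z k‖ ^ 2

/-- The radial derivative `R f (z) = ∑ z_k ∂f/∂z_k (z)`. -/
noncomputable def radial (f : (Fin n → ℂ) → ℂ) : (Fin n → ℂ) → ℂ :=
  fun z => ∑ k, z k * fderiv ℂ f z (Pi.single k 1)

lemma radial_eq (f : (Fin n → ℂ) → ℂ) (z : Fin n → ℂ) : radial f z = fderiv ℂ f z z := by
  unfold radial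
  have h := LinearMap.pi_apply_eq_sum_univ (fderiv ℂ f z : (Fin n → ℂ) →ₗ[ℂ] ℂ) z
  simp only [ContinuousLinearMap.coe_coe] at h
  rw [h]
  refine Finset.sum_congr rfl fun k _ => ?_
  rw [smul_eq_mul]
  congr 2
  funext j
  simp [Pi.single_apply, eq_comm]

lemma nsq_nonneg (z : Fin n → ℂ) : 0 ≤ nsq z := Finset.sum_nonneg fun _ _ => by positivity

lemma nsq_smul (c : ℂ) (z : Fin n → ℂ) : nsq (c • z) = ‖c‖ ^ 2 * nsq z := by
  simp [nsq, Finset.mul_sum, mul_pow]

lemma continuous_nsq : Continuous (nsq : (Fin n → ℂ) → ℝ) := by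
  unfold nsq; fun_prop

lemma norm_sq_le_nsq (z : Fin n → ℂ) : ‖z‖ ^ 2 ≤ nsq z := by
  have h : ‖z‖ ≤ Real.sqrt (nsq z) := by
    rw [pi_norm_le_iff_of_nonneg (Real.sqrt_nonneg _)]
    intro k
    apply Real.le_sqrt_of_sq_le
    exact Finset.single_le_sum (f := fun k => ‖z k‖ ^ 2) (fun _ _ => by positivity)
      (Finset.mem_univ k)
  calc ‖z‖ ^ 2 ≤ (Real.sqrt (nsq z)) ^ 2 := by gcongr
    _ = nsq z := Real.sq_sqrt (nsq_nonneg z)

lemma isCompact_nsq_le (R : ℝ) : IsCompact {z : Fin n → ℂ | nsq z ≤ R} := by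
  apply Metric.isCompact_of_isClosed_isBounded
  · exact isClosed_le continuous_nsq continuous_const
  · rw [isBounded_iff_forall_norm_le]
    refine ⟨Real.sqrt R, fun z hz => Real.le_sqrt_of_sq_le ((norm_sq_le_nsq z).trans hz)⟩

/-- the derivative of an entire function along a line -/
lemma hasDerivAt_line {h : (Fin n → ℂ) → ℂ} (hh : Differentiable ℂ h) (w v : Fin n → ℂ) (c : ℂ) :
    HasDerivAt (fun l : ℂ => h (w + l • v)) (fderiv ℂ h (w + c • v) v) c := by
  have h1 : HasDerivAt (fun l : ℂ => w + l • v) v c := by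
    simpa using ((hasDerivAt_id c).smul_const v).const_add w
  exact ((hh (w + c • v)).hasFDerivAt).comp_hasDerivAt c h1

lemma norm_fderiv_le {h : (Fin n → ℂ) → ℂ} (hh : Differentiable ℂ h) {w : Fin n → ℂ} {M : ℝ}
    (hM : ∀ w' ∈ closedBall w 1, ‖h w'‖ ≤ M) : ‖fderiv ℂ h w‖ ≤ M := by
  have hM0 : 0 ≤ M := (norm_nonneg _).trans (hM w (by simp))
  refine ContinuousLinearMap.opNorm_le_of_unit_norm hM0 fun v hv => ?_
  have hd : Differentiable ℂ (fun l : ℂ => h (w + l • v)) :=
    fun c => (hasDerivAt_line hh w v c).differentiableAt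
  have h1 : deriv (fun l : ℂ => h (w + l • v)) 0 = fderiv ℂ h w v := by
    simpa using (hasDerivAt_line hh w v 0).deriv
  have h2 := Complex.norm_deriv_le_of_forall_mem_sphere_norm_le (c := 0) (R := 1) (C := M)
    one_pos hd.diffContOnCl (f := fun l : ℂ => h (w + l • v)) (by
      intro l hl
      apply hM
      have : ‖l‖ = 1 := by simpa using hl
      simp [norm_smul, this, hv])
  rw [h1] at h2
  simpa using h2

lemma hasDerivAt_slice {h : (Fin n → ℂ) → ℂ} (hh : Differentiable ℂ h) (z : Fin n → ℂ) (c : ℂ) :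
    HasDerivAt (fun l : ℂ => h (l • z)) (fderiv ℂ h (c • z) z) c := by
  simpa using hasDerivAt_line hh 0 z c

lemma differentiable_slice {h : (Fin n → ℂ) → ℂ} (hh : Differentiable ℂ h) (z : Fin n → ℂ) :
    Differentiable ℂ (fun l : ℂ => h (l • z)) :=
  fun c => (hasDerivAt_slice hh z c).differentiableAt

lemma radial_smul {h : (Fin n → ℂ) → ℂ} (hh : Differentiable ℂ h) (z : Fin n → ℂ) (c : ℂ) :
    radial h (c • z) = c * deriv (fun l : ℂ => h (l • z)) c := by
  rw [radial_eq, (hasDerivAt_slice hh z c).deriv, map_smul, smul_eq_mul]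

lemma radial_eq_integral {h : (Fin n → ℂ) → ℂ} (hh : Differentiable ℂ h) (z : Fin n → ℂ) :
    radial h z = (2 * Real.pi * Complex.I : ℂ)⁻¹ • ∫ θ in (0:ℝ)..2 * Real.pi,
      (deriv (circleMap 1 1) θ * ((circleMap 1 1 θ - 1) ^ 2)⁻¹) • h (circleMap 1 1 θ • z) := by
  have h1 : radial h z = deriv (fun l : ℂ => h (l • z)) 1 := by
    simpa using radial_smul hh z 1
  rw [h1, ← Complex.cderiv_eq_deriv (U := univ) (r := 1) isOpen_univ
    (differentiable_slice hh z).differentiableOn one_pos (subset_univ _)]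
  unfold Complex.cderiv circleIntegral
  simp only [smul_smul]

lemma differentiable_radial {h : (Fin n → ℂ) → ℂ} (hh : Differentiable ℂ h) :
    Differentiable ℂ (radial h) := by
  have key : radial h = fun z => (2 * Real.pi * Complex.I : ℂ)⁻¹ • ∫ θ in (0:ℝ)..2 * Real.pi,
      (deriv (circleMap 1 1) θ * ((circleMap 1 1 θ - 1) ^ 2)⁻¹) • h (circleMap 1 1 θ • z) :=
    funext (radial_eq_integral hh)
  rw [key]
  intro x
  refine DifferentiableAt.fun_const_smul (R := ℂ) ?_ ((2 * Real.pi * Complex.I : ℂ)⁻¹)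
  set κ : ℝ → ℂ := fun θ => deriv (circleMap 1 1) θ * ((circleMap 1 1 θ - 1) ^ 2)⁻¹ with hκ
  have hκc : Continuous κ := by
    apply Continuous.mul
    · have : deriv (circleMap 1 1) = fun θ => circleMap 0 1 θ * Complex.I :=
        funext (deriv_circleMap 1 1)
      rw [this]
      fun_prop
    · apply Continuous.inv₀
      · fun_prop
      · intro θ
        have : circleMap 1 1 θ - 1 = circleMap 0 1 θ := by simp [circleMap]
        rw [this]
        have := circleMap_ne_center (c := 0) (R := 1) one_ne_zero (θ := θ)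
        positivity
  have hκn : ∀ θ, ‖κ θ‖ ≤ 1 := by
    intro θ
    have h1 : circleMap 1 1 θ - 1 = circleMap 0 1 θ := by simp [circleMap]
    simp only [hκ]
    rw [h1]
    simp [deriv_circleMap]
  have hln : ∀ θ, ‖circleMap 1 1 θ‖ ≤ 2 := by
    intro θ
    have h1 : circleMap 1 1 θ = 1 + circleMap 0 1 θ := by simp [circleMap]
    rw [h1]
    refine (norm_add_le _ _).trans ?_
    simp
    norm_num
  -- bound
  obtain ⟨M, hM⟩ : ∃ M, ∀ w ∈ closedBall (0 : Fin n → ℂ) (2 * (‖x‖ + 1) + 1), ‖h w‖ ≤ M :=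
    (isCompact_closedBall _ _).exists_bound_of_continuousOn hh.continuous.continuousOn
  have hfd : ∀ y ∈ ball x 1, ∀ θ, ‖fderiv ℂ h (circleMap 1 1 θ • y)‖ ≤ M := by
    intro y hy θ
    apply norm_fderiv_le hh
    intro w' hw'
    apply hM
    rw [mem_closedBall, dist_zero_right]
    have h1 : ‖w'‖ ≤ ‖circleMap 1 1 θ • y‖ + 1 := by
      have := norm_sub_norm_le w' (circleMap 1 1 θ • y)
      rw [mem_closedBall, dist_eq_norm] at hw'
      linarith
    have h2 : ‖circleMap 1 1 θ • y‖ ≤ 2 * (‖x‖ + 1) := by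
      rw [norm_smul]
      have h3 : ‖y‖ ≤ ‖x‖ + 1 := by
        have := norm_sub_norm_le y x
        rw [mem_ball, dist_eq_norm] at hy
        linarith
      gcongr
      exact hln θ
    linarith
  have hM0 : 0 ≤ M := (norm_nonneg _).trans (hM 0 (by
    rw [mem_closedBall, dist_self]; positivity))
  have main := intervalIntegral.hasFDerivAt_integral_of_dominated_of_fderiv_le
    (𝕜 := ℂ) (μ := volume) (a := 0) (b := 2 * Real.pi) (s := ball x 1) (x₀ := x)
    (F := fun z θ => κ θ • h (circleMap 1 1 θ • z))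
    (F' := fun z θ => κ θ • (circleMap 1 1 θ • fderiv ℂ h (circleMap 1 1 θ • z)))
    (bound := fun _ => 2 * M) (ball_mem_nhds x one_pos) ?_ ?_ ?_ ?_ ?_ ?_
  · exact main.differentiableAt
  · refine Eventually.of_forall fun z => Continuous.aestronglyMeasurable ?_
    refine hκc.smul (hh.continuous.comp ?_)
    fun_prop
  · apply Continuous.intervalIntegrable
    refine hκc.smul (hh.continuous.comp ?_)
    fun_prop
  · apply Measurable.aestronglyMeasurable
    refine hκc.measurable.fun_smul ?_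
    refine Measurable.fun_smul ?_ ?_
    · exact (continuous_circleMap 1 1).measurable
    · refine (measurable_fderiv ℂ h).comp ?_
      exact (Continuous.measurable (by fun_prop))
  · refine Eventually.of_forall fun θ _ z hz => ?_
    rw [norm_smul, norm_smul]
    calc ‖κ θ‖ * (‖circleMap 1 1 θ‖ * ‖fderiv ℂ h (circleMap 1 1 θ • z)‖)
        ≤ 1 * (2 * M) := by
          gcongr
          · exact hκn θ
          · exact hln θ
          · exact hfd z hz θ
      _ = 2 * M := one_mul _
  · exact Continuous.intervalIntegrable (by fun_prop) _ _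
  · refine Eventually.of_forall fun θ _ z hz => ?_
    refine HasFDerivAt.fun_const_smul ?_ _
    have h1 : HasFDerivAt (fun z : Fin n → ℂ => circleMap 1 1 θ • z)
        (circleMap 1 1 θ • ContinuousLinearMap.id ℂ (Fin n → ℂ)) z :=
      HasFDerivAt.fun_const_smul (hasFDerivAt_id z) _
    have h2 := ((hh (circleMap 1 1 θ • z)).hasFDerivAt).comp z h1
    convert h2 using 1
    · rfl
    · ext v
      simp

end Pool.Agent.H959.Fock
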