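import Pool.Agent.H959.Fock.Weight

open MeasureTheory Metric Set Filter Topology

namespace Pool.Agent.H959.Fock

variable {n : ℕ}

lemma add_rpow_le {x y q : ℝ} (hx : 0 ≤ x) (hy : 0 ≤ y) (hq : 0 < q) :
    (x + y) ^ q ≤ 2 ^ q * (x ^ q + y ^ q) := by
  rcases le_total x y with h | h
  · calc (x + y) ^ q ≤ (2 * y) ^ q := by
          apply Real.rpow_le_rpow (by positivity) (by linarith) hq.le
      _ = 2 ^ q * y ^ q := Real.mul_rpow (by norm_num) hy
      _ ≤ 2 ^ q * (x ^ q + y ^ q) := by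
          gcongr
          linarith [Real.rpow_nonneg hx q]
  · calc (x + y) ^ q ≤ (2 * x) ^ q := by
          apply Real.rpow_le_rpow (by positivity) (by linarith) hq.le
      _ = 2 ^ q * x ^ q := Real.mul_rpow (by norm_num) hx
      _ ≤ 2 ^ q * (x ^ q + y ^ q) := by
          gcongr
          linarith [Real.rpow_nonneg hy q]

/-- Cauchy estimate for the radial derivative -/
lemma cauchy_radial {h : (Fin n → ℂ) → ℂ} (hh : Differentiable ℂ h) {z : Fin n → ℂ}
    (hz : 0 < nsq z) : ∃ l : ℂ, ‖l - 1‖ ≤ 1 / nsq z ∧ ‖radial h z‖ ≤ nsq z * ‖h (l • z)‖ := by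
  have hd := differentiable_slice hh z
  obtain ⟨l, hl, hmax⟩ := (isCompact_sphere (1:ℂ) (1 / nsq z)).exists_isMaxOn
    (NormedSpace.sphere_nonempty.2 (by positivity)) (hd.continuous.norm.continuousOn)
  refine ⟨l, ?_, ?_⟩
  · rw [mem_sphere, dist_eq_norm] at hl
    exact hl.le
  · have h1 := Complex.norm_deriv_le_of_forall_mem_sphere_norm_le (c := 1) (R := 1 / nsq z)
      (C := ‖h (l • z)‖) (f := fun l : ℂ => h (l • z)) (by positivity) hd.diffContOnCl
      (fun l' hl' => hmax hl')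
    have h2 : radial h z = deriv (fun l : ℂ => h (l • z)) 1 := by
      simpa using radial_smul hh z 1
    rw [h2]
    refine h1.trans (le_of_eq ?_)
    field_simp

/-- integrating the radial derivative along a short segment -/
lemma segment_radial {h : (Fin n → ℂ) → ℂ} (hh : Differentiable ℂ h) {z : Fin n → ℂ} {K : ℝ}
    (hK : 0 < K) (hz : 4 * K ≤ nsq z) : ∃ τ : ℂ, ‖τ - 1‖ ≤ K / nsq z ∧
      ∀ l : ℂ, ‖l - 1‖ ≤ K / nsq z →
        ‖h z‖ ≤ ‖h (l • z)‖ + 2 * K / nsq z * ‖radial h (τ • z)‖ := by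
  have hz0 : 0 < nsq z := by linarith
  have hd := differentiable_slice hh z
  have hrc : Continuous (fun l : ℂ => ‖radial h (l • z)‖) :=
    ((differentiable_slice (differentiable_radial hh) z).continuous).norm
  obtain ⟨τ, hτ, hmax⟩ := (isCompact_closedBall (1:ℂ) (K / nsq z)).exists_isMaxOn
    ⟨1, mem_closedBall_self (by positivity)⟩ hrc.continuousOn
  have hmax' : ∀ l ∈ closedBall (1:ℂ) (K / nsq z), ‖radial h (l • z)‖ ≤ ‖radial h (τ • z)‖ :=
    fun l hl => hmax hl
  refine ⟨τ, by rwa [mem_closedBall, dist_eq_norm] at hτ, ?_⟩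
  intro l hl
  have hder : ∀ t ∈ closedBall (1:ℂ) (K / nsq z), ‖deriv (fun l : ℂ => h (l • z)) t‖ ≤
      2 * ‖radial h (τ • z)‖ := by
    intro t ht
    have h1 := hmax' t ht
    rw [radial_smul hh z t, norm_mul] at h1
    rw [mem_closedBall, dist_eq_norm] at ht
    have h2 : K / nsq z ≤ 1 / 4 := by
      rw [div_le_iff₀ hz0]; linarith
    have h3 : 1 / 2 ≤ ‖t‖ := by
      have := norm_sub_norm_le (1:ℂ) t
      rw [norm_one, norm_sub_rev] at this
      linarith
    have h4 : 1 / 2 * ‖deriv (fun l : ℂ => h (l • z)) t‖ ≤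
      ‖t‖ * ‖deriv (fun l : ℂ => h (l • z)) t‖ := by gcongr
    linarith
  have h5 := Convex.norm_image_sub_le_of_norm_deriv_le (𝕜 := ℂ) (f := fun l : ℂ => h (l • z))
    (s := closedBall (1:ℂ) (K / nsq z)) (x := l) (y := 1) (fun t _ => hd t) hder
    (convex_closedBall _ _) (by rwa [mem_closedBall, dist_eq_norm])
    (mem_closedBall_self (by positivity))
  simp only [one_smul] at h5
  have h6 : ‖h z‖ ≤ ‖h (l • z)‖ + ‖h z - h (l • z)‖ := by
    have := norm_sub_norm_le (h z) (h (l • z))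
    linarith
  have h7 : 2 * ‖radial h (τ • z)‖ * ‖1 - l‖ ≤ 2 * ‖radial h (τ • z)‖ * (K / nsq z) := by
    rw [norm_sub_rev]
    gcongr
  have h8 : 2 * ‖radial h (τ • z)‖ * (K / nsq z) = 2 * K / nsq z * ‖radial h (τ • z)‖ := by ring
  linarith

lemma wt_succ_le (α : ℝ) (s : ℕ) {z : Fin n → ℂ} (hz : 1 ≤ nsq z) :
    wt α s z ≤ 2 * nsq z * wt α (s + 1) z := by
  rw [wt_succ α s z]
  have := wt_pos α (s + 1) z
  gcongr
  linarith

lemma le_wt_succ (α : ℝ) (s : ℕ) (z : Fin n → ℂ) :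
    nsq z * wt α (s + 1) z ≤ wt α s z := by
  rw [wt_succ α s z]
  have := wt_pos α (s + 1) z
  gcongr
  linarith

/-- weighted form of `segment_radial` with a decay factor -/
lemma segment_weighted {α : ℝ} (hα : 0 < α) (s : ℕ) {h : (Fin n → ℂ) → ℂ}
    (hh : Differentiable ℂ h) {z : Fin n → ℂ} {a : ℝ} (ha : 1 ≤ a)
    (hz : 4 * (a + 3) ≤ nsq z) : ∃ τ : ℂ, ‖τ - 1‖ ≤ (a + 2) / nsq z ∧
      ∀ l : ℂ, ‖l - ((1 - (a + 1) / nsq z : ℝ) : ℂ)‖ ≤ 1 / nsq z →
        ‖l‖ ≤ 1 ∧ ‖l - 1‖ ≤ (a + 2) / nsq z ∧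
        ‖h z‖ * wt α s z ≤ Real.exp (-(α * a / 2)) * (‖h (l • z)‖ * wt α s (l • z)) +
          4 * (a + 2) * (‖radial h (τ • z)‖ * wt α (s + 1) z) := by
  have hz0 : 0 < nsq z := by linarith
  obtain ⟨τ, hτ, hseg⟩ := segment_radial hh (K := a + 2) (z := z) (by linarith) (by linarith)
  refine ⟨τ, hτ, fun l hl => ?_⟩
  have h1 : ‖l‖ ≤ 1 - a / nsq z := by
    have h2 : ‖l‖ ≤ ‖l - ((1 - (a + 1) / nsq z : ℝ) : ℂ)‖ + ‖((1 - (a + 1) / nsq z : ℝ) : ℂ)‖ := by
      have := norm_add_le (l - ((1 - (a + 1) / nsq z : ℝ) : ℂ)) ((1 - (a + 1) / nsq z : ℝ) : ℂ)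
      rwa [sub_add_cancel] at this
    have h3 : ‖((1 - (a + 1) / nsq z : ℝ) : ℂ)‖ = 1 - (a + 1) / nsq z := by
      rw [Complex.norm_real, Real.norm_of_nonneg]
      rw [sub_nonneg, div_le_one hz0]
      linarith
    rw [h3] at h2
    calc ‖l‖ ≤ 1 / nsq z + (1 - (a + 1) / nsq z) := by linarith
      _ = 1 - a / nsq z := by ring
  have h4 : ‖l - 1‖ ≤ (a + 2) / nsq z := by
    have h5 : ‖l - 1‖ ≤ ‖l - ((1 - (a + 1) / nsq z : ℝ) : ℂ)‖ +
      ‖((1 - (a + 1) / nsq z : ℝ) : ℂ) - 1‖ := norm_sub_le_norm_sub_add_norm_sub _ _ _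
    have h6 : ‖((1 - (a + 1) / nsq z : ℝ) : ℂ) - 1‖ = (a + 1) / nsq z := by
      have : ((1 - (a + 1) / nsq z : ℝ) : ℂ) - 1 = ((-((a + 1) / nsq z) : ℝ) : ℂ) := by
        push_cast; ring
      rw [this, Complex.norm_real, norm_neg, Real.norm_of_nonneg (by positivity)]
    rw [h6] at h5
    calc ‖l - 1‖ ≤ 1 / nsq z + (a + 1) / nsq z := by linarith
      _ = (a + 2) / nsq z := by ring
  have h0a : 0 ≤ a / nsq z := by positivity
  refine ⟨by linarith, h4, ?_⟩
  have h7 := hseg l h4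
  have h8 := wt_decay hα s (a := a) (by linarith) (z := z) (by linarith) h1
  have h9 := wt_succ_le α s (z := z) (by linarith)
  have hw := wt_pos α s z
  calc ‖h z‖ * wt α s z
      ≤ (‖h (l • z)‖ + 2 * (a + 2) / nsq z * ‖radial h (τ • z)‖) * wt α s z := by gcongr
    _ = ‖h (l • z)‖ * wt α s z + 2 * (a + 2) / nsq z * ‖radial h (τ • z)‖ * wt α s z := by ring
    _ ≤ ‖h (l • z)‖ * (Real.exp (-(α * a / 2)) * wt α s (l • z)) +
        2 * (a + 2) / nsq z * ‖radial h (τ • z)‖ * (2 * nsq z * wt α (s + 1) z) := by gcongr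
    _ = _ := by
      field_simp
      ring

/-- the forward implication, `0 < q < ∞` -/
theorem forward {α : ℝ} (hα : 0 < α) {q : ℝ} (hq : 0 < q) (s : ℕ) {h : (Fin n → ℂ) → ℂ}
    (hh : Differentiable ℂ h) (hint : ∫⁻ z, Psi α q s h z < ⊤) :
    ∫⁻ z, Psi α q (s + 1) (radial h) z < ⊤ := by
  obtain ⟨C, hC, hsub⟩ := weighted_submean (n := n) hα hq s (K := 1) (by norm_num)
  have hrc : Continuous (radial h) := (differentiable_radial hh).continuous
  have hm : MeasurableSet {z : Fin n → ℂ | nsq z ≤ 8} :=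
    measurableSet_le continuous_nsq.measurable measurable_const
  rw [← lintegral_add_compl _ hm]
  refine ENNReal.add_lt_top.2 ⟨lintegral_Psi_lt_top hq hrc 8, ?_⟩
  have hset : {z : Fin n → ℂ | nsq z ≤ 8}ᶜ ⊆ {z : Fin n → ℂ | 4 * (1 + 1) ≤ nsq z} := by
    intro z hz
    simp only [mem_compl_iff, mem_ofPred_eq, not_le] at hz ⊢
    linarith
  have hm2 : MeasurableSet {z : Fin n → ℂ | 4 * (1 + 1) ≤ nsq z} :=
    measurableSet_le measurable_const continuous_nsq.measurable
  calc ∫⁻ z in {z : Fin n → ℂ | nsq z ≤ 8}ᶜ, Psi α q (s + 1) (radial h) z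
      ≤ ∫⁻ z in {z : Fin n → ℂ | 4 * (1 + 1) ≤ nsq z}, Psi α q (s + 1) (radial h) z :=
        lintegral_mono_set hset
    _ ≤ ∫⁻ z in {z : Fin n → ℂ | 4 * (1 + 1) ≤ nsq z},
        ENNReal.ofReal C * Avg α q s (1 + 1) h z := by
        refine setLIntegral_mono' hm2 fun z hz => ?_
        have hz' : 4 * (1 + 1) ≤ nsq z := hz
        obtain ⟨l, hl, hle⟩ := cauchy_radial hh (z := z) (by linarith)
        refine le_trans ?_ (hsub h hh z (by linarith) l hl)
        unfold Psi
        apply ENNReal.ofReal_le_ofReal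
        have hw := wt_pos α (s + 1) z
        apply Real.rpow_le_rpow (by positivity) _ hq.le
        calc ‖radial h z‖ * wt α (s + 1) z ≤ (nsq z * ‖h (l • z)‖) * wt α (s + 1) z := by gcongr
          _ = ‖h (l • z)‖ * (nsq z * wt α (s + 1) z) := by ring
          _ ≤ ‖h (l • z)‖ * wt α s z := by
            gcongr
            exact le_wt_succ α s z
    _ = ENNReal.ofReal C * ∫⁻ z in {z : Fin n → ℂ | 4 * (1 + 1) ≤ nsq z},
        Avg α q s (1 + 1) h z := by
        rw [lintegral_const_mul' _ _ ENNReal.ofReal_ne_top]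
    _ ≤ ENNReal.ofReal C * (ENNReal.ofReal (CB n * (1 + 1) ^ 2) * ∫⁻ z, Psi α q s h z) := by
        gcongr
        exact lintegral_Avg_le (by norm_num) hh.continuous
    _ < ⊤ := by
        apply ENNReal.mul_lt_top ENNReal.ofReal_lt_top
        exact ENNReal.mul_lt_top ENNReal.ofReal_lt_top hint

lemma exists_good_a {b : ℝ} (hb : 0 < b) (c : ℝ) :
    ∃ a : ℝ, 1 ≤ a ∧ c * (Real.exp (-(b * a)) * (a + 2) ^ 2) ≤ 1 / 2 := by
  have h1 := tendsto_rpow_mul_exp_neg_mul_atTop_nhds_zero 2 b hb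
  have h2 : Tendsto (fun x : ℝ => (|c| * 9) * (x ^ (2:ℝ) * Real.exp (-b * x))) atTop
      (𝓝 ((|c| * 9) * 0)) := h1.const_mul _
  rw [mul_zero] at h2
  have h3 := (h2.eventually (gt_mem_nhds (by norm_num : (0:ℝ) < 1 / 2))).and
    (eventually_ge_atTop (1:ℝ))
  obtain ⟨a, ha, ha1⟩ := h3.exists
  refine ⟨a, ha1, ?_⟩
  rw [Real.rpow_two] at ha
  calc c * (Real.exp (-(b * a)) * (a + 2) ^ 2) ≤ |c| * (Real.exp (-(b * a)) * (a + 2) ^ 2) := by
        gcongr
        exact le_abs_self c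
    _ ≤ |c| * (Real.exp (-(b * a)) * (3 * a) ^ 2) := by
        gcongr
        linarith
    _ = (|c| * 9) * (a ^ 2 * Real.exp (-b * a)) := by
        rw [neg_mul]
        ring
    _ ≤ 1 / 2 := ha.le

/-- the backward implication, `0 < q < ∞` -/
theorem backward {α : ℝ} (hα : 0 < α) {q : ℝ} (hq : 0 < q) (s : ℕ) {h : (Fin n → ℂ) → ℂ}
    (hh : Differentiable ℂ h) (hint : ∫⁻ z, Psi α q (s + 1) (radial h) z < ⊤) :
    ∫⁻ z, Psi α q s h z < ⊤ := by
  have hπ : 0 < Real.pi := Real.pi_pos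
  obtain ⟨a, ha1, ha⟩ := exists_good_a (b := α * q / 2) (by positivity)
    (2 ^ q * (1 / Real.pi) * CB n)
  obtain ⟨C, hC, hsub⟩ := weighted_submean (n := n) hα hq (s + 1) (K := a + 2) (by linarith)
  have hrc : Continuous (radial h) := (differentiable_radial hh).continuous
  have hCB := CB_pos n
  set c1 : ℝ := 2 ^ q * Real.exp (-(α * q / 2 * a)) with hc1
  set c2 : ℝ := 2 ^ q * (4 * (a + 2)) ^ q * C with hc2
  have hc10 : 0 < c1 := by positivity
  have hc20 : 0 < c2 := by positivity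
  -- pointwise inequality
  have hP : ∀ z : Fin n → ℂ, 4 * (a + 3) ≤ nsq z → ∀ l : ℂ,
      ‖l - ((1 - (a + 1) / nsq z : ℝ) : ℂ)‖ ≤ 1 / nsq z →
      Psi α q s h z ≤ ENNReal.ofReal c1 * Psi α q s h (l • z) +
        ENNReal.ofReal c2 * Avg α q (s + 1) (a + 2 + 1) (radial h) z := by
    intro z hz l hl
    obtain ⟨τ, hτ, hτl⟩ := segment_weighted hα s hh ha1 hz
    obtain ⟨_, _, h3⟩ := hτl l hl
    have hw := wt_pos α s z
    have hw1 := wt_pos α (s + 1) z
    have hw2 := wt_pos α s (l • z)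
    have h4 := hsub (radial h) (differentiable_radial hh) z (by linarith) τ hτ
    have h5 : (‖h z‖ * wt α s z) ^ q ≤ c1 * (‖h (l • z)‖ * wt α s (l • z)) ^ q +
        2 ^ q * (4 * (a + 2)) ^ q * (‖radial h (τ • z)‖ * wt α (s + 1) z) ^ q := by
      calc (‖h z‖ * wt α s z) ^ q
          ≤ (Real.exp (-(α * a / 2)) * (‖h (l • z)‖ * wt α s (l • z)) +
          4 * (a + 2) * (‖radial h (τ • z)‖ * wt α (s + 1) z)) ^ q :=
            Real.rpow_le_rpow (by positivity) h3 hq.le
        _ ≤ 2 ^ q * ((Real.exp (-(α * a / 2)) * (‖h (l • z)‖ * wt α s (l • z))) ^ q +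
            (4 * (a + 2) * (‖radial h (τ • z)‖ * wt α (s + 1) z)) ^ q) :=
            add_rpow_le (by positivity) (by positivity) hq
        _ = _ := by
            rw [Real.mul_rpow (Real.exp_pos _).le (by positivity),
              Real.mul_rpow (x := 4 * (a + 2)) (by positivity) (by positivity), ← Real.exp_mul,
              hc1]
            have : -(α * a / 2) * q = -(α * q / 2 * a) := by ring
            rw [this]
            ring
    calc Psi α q s h z = ENNReal.ofReal ((‖h z‖ * wt α s z) ^ q) := rfl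
      _ ≤ ENNReal.ofReal (c1 * (‖h (l • z)‖ * wt α s (l • z)) ^ q +
        2 ^ q * (4 * (a + 2)) ^ q * (‖radial h (τ • z)‖ * wt α (s + 1) z) ^ q) :=
          ENNReal.ofReal_le_ofReal h5
      _ = ENNReal.ofReal c1 * Psi α q s h (l • z) + ENNReal.ofReal (2 ^ q * (4 * (a + 2)) ^ q) *
          ENNReal.ofReal ((‖radial h (τ • z)‖ * wt α (s + 1) z) ^ q) := by
          rw [ENNReal.ofReal_add (by positivity) (by positivity), ENNReal.ofReal_mul hc10.le,
            ENNReal.ofReal_mul (p := 2 ^ q * (4 * (a + 2)) ^ q) (by positivity), Psi]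
      _ ≤ ENNReal.ofReal c1 * Psi α q s h (l • z) + ENNReal.ofReal (2 ^ q * (4 * (a + 2)) ^ q) *
          (ENNReal.ofReal C * Avg α q (s + 1) (a + 2 + 1) (radial h) z) := by gcongr
      _ = _ := by
          rw [hc2, ENNReal.ofReal_mul (p := 2 ^ q * (4 * (a + 2)) ^ q) (by positivity)]
          ring
  -- averaged inequality
  have hQ : ∀ R : ℝ, ∀ z : Fin n → ℂ, 4 * (a + 3) ≤ nsq z → nsq z ≤ R →
      Psi α q s h z ≤ ENNReal.ofReal (c1 * (1 / Real.pi)) * (ENNReal.ofReal (nsq z ^ 2) *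
        ∫⁻ l in closedBall (1:ℂ) ((a + 2) / nsq z),
          ({w : Fin n → ℂ | nsq w ≤ R}.indicator (Psi α q s h)) (l • z)) +
        ENNReal.ofReal c2 * Avg α q (s + 1) (a + 2 + 1) (radial h) z := by
    intro R z hz hzR
    have hz0 : 0 < nsq z := by linarith
    set D : Set ℂ := closedBall ((1 - (a + 1) / nsq z : ℝ) : ℂ) (1 / nsq z) with hD
    set A := Avg α q (s + 1) (a + 2 + 1) (radial h) z with hA
    have hvol : volume D = ENNReal.ofReal (Real.pi / nsq z ^ 2) := by
      have hpi : (NNReal.pi : ENNReal) = ENNReal.ofReal Real.pi := by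
        rw [← NNReal.coe_real_pi, ENNReal.ofReal_coe_nnreal]
      rw [hD, Complex.volume_closedBall, hpi, ← ENNReal.ofReal_pow (by positivity),
        ← ENNReal.ofReal_mul (by positivity)]
      congr 1
      field_simp
    have hsubset : D ⊆ closedBall (1:ℂ) ((a + 2) / nsq z) := by
      intro l hl
      obtain ⟨τ, hτ, hτl⟩ := segment_weighted hα s hh ha1 hz
      rw [hD, mem_closedBall, dist_eq_norm] at hl
      have := (hτl l hl).2.1
      rwa [mem_closedBall, dist_eq_norm]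
    have h1 : Psi α q s h z * volume D ≤ ENNReal.ofReal c1 *
        (∫⁻ l in closedBall (1:ℂ) ((a + 2) / nsq z),
          ({w : Fin n → ℂ | nsq w ≤ R}.indicator (Psi α q s h)) (l • z)) +
        (ENNReal.ofReal c2 * A) * volume D := by
      calc Psi α q s h z * volume D = ∫⁻ _ in D, Psi α q s h z := by rw [setLIntegral_const]
        _ ≤ ∫⁻ l in D, (ENNReal.ofReal c1 *
            ({w : Fin n → ℂ | nsq w ≤ R}.indicator (Psi α q s h)) (l • z) +
            ENNReal.ofReal c2 * A) := by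
            refine setLIntegral_mono' measurableSet_closedBall fun l hl => ?_
            rw [mem_closedBall, dist_eq_norm] at hl
            obtain ⟨τ, hτ, hτl⟩ := segment_weighted hα s hh ha1 hz
            have hl1 := (hτl l hl).1
            have hmem : l • z ∈ {w : Fin n → ℂ | nsq w ≤ R} := by
              show nsq (l • z) ≤ R
              rw [nsq_smul]
              calc ‖l‖ ^ 2 * nsq z ≤ 1 ^ 2 * nsq z := by gcongr
                _ = nsq z := by ring
                _ ≤ R := hzR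
            rw [indicator_of_mem hmem]
            exact hP z hz l hl
        _ = ENNReal.ofReal c1 * (∫⁻ l in D,
            ({w : Fin n → ℂ | nsq w ≤ R}.indicator (Psi α q s h)) (l • z)) +
            (ENNReal.ofReal c2 * A) * volume D := by
            rw [lintegral_add_right _ measurable_const, setLIntegral_const,
              lintegral_const_mul' _ _ ENNReal.ofReal_ne_top]
        _ ≤ _ := by
            refine add_le_add (mul_le_mul' le_rfl (lintegral_mono_set hsubset)) le_rfl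
    have h2 : volume D * ENNReal.ofReal ((1 / Real.pi) * nsq z ^ 2) = 1 := by
      rw [hvol, ← ENNReal.ofReal_mul (by positivity), ← ENNReal.ofReal_one]
      congr 1
      field_simp
    calc Psi α q s h z = (Psi α q s h z * volume D) *
        ENNReal.ofReal ((1 / Real.pi) * nsq z ^ 2) := by rw [mul_assoc, h2, mul_one]
      _ ≤ (ENNReal.ofReal c1 * (∫⁻ l in closedBall (1:ℂ) ((a + 2) / nsq z),
          ({w : Fin n → ℂ | nsq w ≤ R}.indicator (Psi α q s h)) (l • z)) +
        (ENNReal.ofReal c2 * A) * volume D) * ENNReal.ofReal ((1 / Real.pi) * nsq z ^ 2) :=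
          mul_le_mul' h1 le_rfl
      _ = _ := by
          rw [add_mul, mul_assoc (ENNReal.ofReal c2 * A), h2, mul_one,
            ENNReal.ofReal_mul hc10.le, ENNReal.ofReal_mul (p := 1 / Real.pi) (by positivity)]
          ring
  -- integrated inequality
  set J := ∫⁻ z, Psi α q (s + 1) (radial h) z with hJ
  set U : ℝ := 4 * (a + 3) with hU
  have hmR : ∀ R : ℝ, MeasurableSet {w : Fin n → ℂ | nsq w ≤ R} := fun R =>
    measurableSet_le continuous_nsq.measurable measurable_const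
  have hmU : MeasurableSet {w : Fin n → ℂ | U ≤ nsq w} :=
    measurableSet_le measurable_const continuous_nsq.measurable
  have hI : ∀ R : ℝ, ∫⁻ z in {w : Fin n → ℂ | U ≤ nsq w} ∩ {w | nsq w ≤ R}, Psi α q s h z ≤
      ENNReal.ofReal (1 / 2) * (∫⁻ z in {w : Fin n → ℂ | nsq w ≤ R}, Psi α q s h z) +
      ENNReal.ofReal (c2 * (CB n * (a + 2 + 1) ^ 2)) * J := by
    intro R
    set Φ : (Fin n → ℂ) → ENNReal := {w : Fin n → ℂ | nsq w ≤ R}.indicator (Psi α q s h) with hΦ
    have hΦm : Measurable Φ := (measurable_Psi hh.continuous).indicator (hmR R)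
    have hAm : Measurable (fun z => ENNReal.ofReal c2 *
        Avg α q (s + 1) (a + 2 + 1) (radial h) z) :=
      (measurable_Avg hrc).const_mul _
    calc ∫⁻ z in {w : Fin n → ℂ | U ≤ nsq w} ∩ {w | nsq w ≤ R}, Psi α q s h z
        ≤ ∫⁻ z in {w : Fin n → ℂ | U ≤ nsq w} ∩ {w | nsq w ≤ R},
          (ENNReal.ofReal (c1 * (1 / Real.pi)) * (ENNReal.ofReal (nsq z ^ 2) *
          ∫⁻ l in closedBall (1:ℂ) ((a + 2) / nsq z), Φ (l • z)) +
          ENNReal.ofReal c2 * Avg α q (s + 1) (a + 2 + 1) (radial h) z) := by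
          refine setLIntegral_mono' (hmU.inter (hmR R)) fun z hz => ?_
          exact hQ R z hz.1 hz.2
      _ ≤ ∫⁻ z in {w : Fin n → ℂ | U ≤ nsq w},
          (ENNReal.ofReal (c1 * (1 / Real.pi)) * (ENNReal.ofReal (nsq z ^ 2) *
          ∫⁻ l in closedBall (1:ℂ) ((a + 2) / nsq z), Φ (l • z)) +
          ENNReal.ofReal c2 * Avg α q (s + 1) (a + 2 + 1) (radial h) z) :=
          lintegral_mono_set inter_subset_left
      _ = ENNReal.ofReal (c1 * (1 / Real.pi)) * (∫⁻ z in {w : Fin n → ℂ | U ≤ nsq w},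
          ENNReal.ofReal (nsq z ^ 2) *
          ∫⁻ l in closedBall (1:ℂ) ((a + 2) / nsq z), Φ (l • z)) +
          ENNReal.ofReal c2 * ∫⁻ z in {w : Fin n → ℂ | U ≤ nsq w},
            Avg α q (s + 1) (a + 2 + 1) (radial h) z := by
          rw [lintegral_add_right _ hAm, lintegral_const_mul' _ _ ENNReal.ofReal_ne_top,
            lintegral_const_mul' _ _ ENNReal.ofReal_ne_top]
      _ ≤ ENNReal.ofReal (c1 * (1 / Real.pi)) *
          (ENNReal.ofReal (CB n * (a + 2) ^ 2) * ∫⁻ z, Φ z) +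
          ENNReal.ofReal c2 * (ENNReal.ofReal (CB n * (a + 2 + 1) ^ 2) * J) := by
          refine add_le_add (mul_le_mul' le_rfl ?_) (mul_le_mul' le_rfl ?_)
          · refine le_trans ?_ (tonelli_disc (ρ := a + 2) (by linarith) hΦm)
            refine lintegral_mono_set fun z hz => ?_
            have hz' : U ≤ nsq z := hz
            show 4 * (a + 2) ≤ nsq z
            linarith
          · refine le_trans ?_ (lintegral_Avg_le (K := a + 2 + 1) (by linarith) hrc)
            refine lintegral_mono_set fun z hz => ?_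
            have hz' : U ≤ nsq z := hz
            show 4 * (a + 2 + 1) ≤ nsq z
            linarith
      _ ≤ _ := by
          rw [← mul_assoc, ← mul_assoc, ← ENNReal.ofReal_mul (by positivity),
            ← ENNReal.ofReal_mul (by positivity), hΦ, lintegral_indicator (hmR R)]
          refine add_le_add (mul_le_mul' (ENNReal.ofReal_le_ofReal ?_) le_rfl) le_rfl
          refine le_trans (le_of_eq ?_) ha
          rw [hc1]
          ring
  set V : ℝ → ENNReal := fun R => ∫⁻ z in {w : Fin n → ℂ | nsq w ≤ R}, Psi α q s h z with hV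
  have hVfin : ∀ R, V R < ⊤ := fun R => lintegral_Psi_lt_top hq hh.continuous R
  set B := 2 * (V U + ENNReal.ofReal (c2 * (CB n * (a + 2 + 1) ^ 2)) * J) with hB
  have hBfin : B < ⊤ := by
    apply ENNReal.mul_lt_top (by norm_num)
    apply ENNReal.add_lt_top.2 ⟨hVfin U, ENNReal.mul_lt_top ENNReal.ofReal_lt_top hint⟩
  have hVB : ∀ R, V R ≤ B := by
    intro R
    have h1 : V R ≤ V U + (ENNReal.ofReal (1 / 2) * V R +
        ENNReal.ofReal (c2 * (CB n * (a + 2 + 1) ^ 2)) * J) := by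
      calc V R ≤ ∫⁻ z in {w : Fin n → ℂ | nsq w ≤ U} ∪
            ({w : Fin n → ℂ | U ≤ nsq w} ∩ {w | nsq w ≤ R}), Psi α q s h z := by
            refine lintegral_mono_set fun z hz => ?_
            rcases le_total (nsq z) U with h | h
            · exact Or.inl h
            · exact Or.inr ⟨h, hz⟩
        _ ≤ V U + ∫⁻ z in ({w : Fin n → ℂ | U ≤ nsq w} ∩ {w | nsq w ≤ R}), Psi α q s h z :=
            lintegral_union_le _ _ _
        _ ≤ _ := add_le_add le_rfl (hI R)
    have h2 : ENNReal.ofReal (1 / 2) * V R ≤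
        V U + ENNReal.ofReal (c2 * (CB n * (a + 2 + 1) ^ 2)) * J := by
      have h3 : V R = ENNReal.ofReal (1 / 2) * V R + ENNReal.ofReal (1 / 2) * V R := by
        rw [← add_mul, ← ENNReal.ofReal_add (by norm_num) (by norm_num)]
        norm_num
      have h4 : ENNReal.ofReal (1 / 2) * V R ≠ ⊤ :=
        ENNReal.mul_ne_top ENNReal.ofReal_ne_top (hVfin R).ne
      have h5 : ENNReal.ofReal (1 / 2) * V R + ENNReal.ofReal (1 / 2) * V R ≤
          (V U + ENNReal.ofReal (c2 * (CB n * (a + 2 + 1) ^ 2)) * J) +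
          ENNReal.ofReal (1 / 2) * V R := by
        rw [← h3]
        refine h1.trans (le_of_eq ?_)
        ring
      exact (ENNReal.add_le_add_iff_right h4).1 h5
    calc V R = 2 * (ENNReal.ofReal (1 / 2) * V R) := by
          rw [← mul_assoc]
          have : (2 : ENNReal) * ENNReal.ofReal (1 / 2) = 1 := by
            rw [← ENNReal.ofReal_ofNat, ← ENNReal.ofReal_mul (by norm_num)]
            norm_num
          rw [this, one_mul]
      _ ≤ B := by
          rw [hB]
          gcongr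
  have hun : (⋃ k : ℕ, {w : Fin n → ℂ | nsq w ≤ k}) = univ := by
    ext w
    simp only [mem_iUnion, mem_univ, iff_true]
    exact exists_nat_ge (nsq w)
  have hdir : Directed (· ⊆ ·) (fun k : ℕ => {w : Fin n → ℂ | nsq w ≤ k}) := by
    apply Monotone.directed_le
    intro i j hij w hw
    exact le_trans (show nsq w ≤ i from hw) (by exact_mod_cast hij)
  rw [← setLIntegral_univ, ← hun, setLIntegral_iUnion_of_directed _ hdir]
  exact lt_of_le_of_lt (iSup_le fun k => hVB k) hBfin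

end Pool.Agent.H959.Fock
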