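import Pool.Agent.H959.Fock.Finite

open MeasureTheory Metric Set Filter Topology

namespace Pool.Agent.H959.Fock

variable {n : ℕ}

lemma bounded_on {g : (Fin n → ℂ) → ℂ} (hg : Continuous g) (α : ℝ) (s : ℕ) (R : ℝ) :
    ∃ M : ℝ, ∀ z : Fin n → ℂ, nsq z ≤ R → ‖g z‖ * wt α s z ≤ M := by
  obtain ⟨M, hM⟩ := (isCompact_nsq_le (n := n) R).exists_bound_of_continuousOn
    (f := fun z => ‖g z‖ * wt α s z) (hg.norm.mul (continuous_wt α s)).continuousOn
  exact ⟨M, fun z hz => (le_abs_self _).trans (hM z hz)⟩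

theorem forward_top {α : ℝ} (hα : 0 < α) (s : ℕ) {h : (Fin n → ℂ) → ℂ}
    (hh : Differentiable ℂ h) (hb : ∃ B : ℝ, ∀ z, ‖h z‖ * wt α s z ≤ B) :
    ∃ B : ℝ, ∀ z, ‖radial h z‖ * wt α (s + 1) z ≤ B := by
  obtain ⟨B, hB⟩ := hb
  obtain ⟨M, hM⟩ := bounded_on (differentiable_radial hh).continuous α (s + 1) 1
  refine ⟨max M (Cw α s 1 * B), fun z => ?_⟩
  rcases le_total (nsq z) 1 with hz | hz
  · exact (hM z hz).trans (le_max_left _ _)
  · refine le_trans ?_ (le_max_right _ _)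
    have hz0 : 0 < nsq z := by linarith
    obtain ⟨l, hl, hle⟩ := cauchy_radial hh hz0
    have hw := wt_pos α (s + 1) z
    have hC := Cw_pos α s (K := 1) (by norm_num)
    calc ‖radial h z‖ * wt α (s + 1) z ≤ (nsq z * ‖h (l • z)‖) * wt α (s + 1) z := by gcongr
      _ = ‖h (l • z)‖ * (nsq z * wt α (s + 1) z) := by ring
      _ ≤ ‖h (l • z)‖ * wt α s z := by
        gcongr
        exact le_wt_succ α s z
      _ ≤ ‖h (l • z)‖ * (Cw α s 1 * wt α s (l • z)) := by
        gcongr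
        exact wt_le hα s (by norm_num) hz hl
      _ = Cw α s 1 * (‖h (l • z)‖ * wt α s (l • z)) := by ring
      _ ≤ Cw α s 1 * B := by
        gcongr
        exact hB _

theorem backward_top {α : ℝ} (hα : 0 < α) (s : ℕ) {h : (Fin n → ℂ) → ℂ}
    (hh : Differentiable ℂ h) (hb : ∃ B : ℝ, ∀ z, ‖radial h z‖ * wt α (s + 1) z ≤ B) :
    ∃ B : ℝ, ∀ z, ‖h z‖ * wt α s z ≤ B := by
  obtain ⟨B, hB⟩ := hb
  obtain ⟨a, ha1, ha⟩ : ∃ a : ℝ, 1 ≤ a ∧ Real.exp (-(α * a / 2)) ≤ 1 / 2 := by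
    obtain ⟨a, ha1, ha⟩ := exists_good_a (b := α / 2) (by positivity) 1
    refine ⟨a, ha1, ?_⟩
    have h1 : (1:ℝ) ≤ (a + 2) ^ 2 := by nlinarith
    have h2 : Real.exp (-(α / 2 * a)) * 1 ≤ Real.exp (-(α / 2 * a)) * (a + 2) ^ 2 := by gcongr
    have h3 : -(α * a / 2) = -(α / 2 * a) := by ring
    rw [h3]
    linarith
  set U : ℝ := 4 * (a + 3) with hU
  obtain ⟨M, hM⟩ := bounded_on hh.continuous α s U
  have hC := Cw_pos α (s + 1) (K := a + 2) (by linarith)
  set C' : ℝ := 4 * (a + 2) * (Cw α (s + 1) (a + 2) * B) with hC'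
  refine ⟨max M (2 * C'), fun z0 => ?_⟩
  obtain ⟨z, hz, hmax⟩ := (isCompact_nsq_le (n := n) (nsq z0)).exists_isMaxOn
    ⟨z0, le_refl (nsq z0)⟩ ((hh.continuous.norm.mul (continuous_wt α s)).continuousOn)
  have hmax' : ∀ w : Fin n → ℂ, nsq w ≤ nsq z0 → ‖h w‖ * wt α s w ≤ ‖h z‖ * wt α s z :=
    fun w hw => hmax hw
  refine (hmax' z0 le_rfl).trans ?_
  have hz' : nsq z ≤ nsq z0 := hz
  rcases le_total (nsq z) U with hzU | hzU
  · exact (hM z hzU).trans (le_max_left _ _)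
  · refine le_trans ?_ (le_max_right _ _)
    have hzpos : 0 < nsq z := by linarith
    obtain ⟨τ, hτ, hτl⟩ := segment_weighted hα s hh ha1 hzU
    obtain ⟨h1, _, h3⟩ := hτl ((1 - (a + 1) / nsq z : ℝ) : ℂ) (by
      rw [sub_self, norm_zero]; positivity)
    set l : ℂ := ((1 - (a + 1) / nsq z : ℝ) : ℂ) with hl
    have h4 : ‖h (l • z)‖ * wt α s (l • z) ≤ ‖h z‖ * wt α s z := by
      apply hmax'
      rw [nsq_smul]
      calc ‖l‖ ^ 2 * nsq z ≤ 1 ^ 2 * nsq z := by gcongr
        _ = nsq z := by ring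
        _ ≤ nsq z0 := hz'
    have h5 : ‖radial h (τ • z)‖ * wt α (s + 1) z ≤ Cw α (s + 1) (a + 2) * B := by
      calc ‖radial h (τ • z)‖ * wt α (s + 1) z
          ≤ ‖radial h (τ • z)‖ * (Cw α (s + 1) (a + 2) * wt α (s + 1) (τ • z)) := by
            gcongr
            exact wt_le hα (s + 1) (by linarith) (by linarith) hτ
        _ = Cw α (s + 1) (a + 2) * (‖radial h (τ • z)‖ * wt α (s + 1) (τ • z)) := by ring
        _ ≤ _ := by
          gcongr
          exact hB _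
    have h6 : 0 ≤ ‖h z‖ * wt α s z := mul_nonneg (norm_nonneg _) (wt_pos α s z).le
    have h7 : ‖h z‖ * wt α s z ≤ 1 / 2 * (‖h z‖ * wt α s z) + C' := by
      calc ‖h z‖ * wt α s z ≤ Real.exp (-(α * a / 2)) * (‖h (l • z)‖ * wt α s (l • z)) +
          4 * (a + 2) * (‖radial h (τ • z)‖ * wt α (s + 1) z) := h3
        _ ≤ Real.exp (-(α * a / 2)) * (‖h z‖ * wt α s z) +
          4 * (a + 2) * (Cw α (s + 1) (a + 2) * B) := by gcongr
        _ ≤ 1 / 2 * (‖h z‖ * wt α s z) + C' := by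
          rw [hC']
          gcongr
    linarith

/-- the weighted function `h(z) (1+|z|^2)^{-s} e^{-α|z|^2/2}` -/
noncomputable def G (α : ℝ) (s : ℕ) (h : (Fin n → ℂ) → ℂ) (z : Fin n → ℂ) : ℂ :=
  h z / ((1 + nsq z : ℝ) : ℂ) ^ s * ((Real.exp (-(α * nsq z / 2)) : ℝ) : ℂ)

lemma norm_G (α : ℝ) (s : ℕ) (h : (Fin n → ℂ) → ℂ) (z : Fin n → ℂ) :
    ‖G α s h z‖ = ‖h z‖ * wt α s z := by
  have h1 := one_add_nsq_pos z
  unfold G wt
  rw [norm_mul, norm_div, norm_pow, Complex.norm_real, Complex.norm_real,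
    Real.norm_of_nonneg h1.le, Real.norm_of_nonneg (Real.exp_pos _).le]
  ring

lemma continuous_G (α : ℝ) (s : ℕ) {h : (Fin n → ℂ) → ℂ} (hh : Continuous h) :
    Continuous (G α s h) := by
  have hc := continuous_nsq (n := n)
  unfold G
  refine Continuous.mul (Continuous.div hh (by fun_prop) ?_) (by fun_prop)
  intro z
  have h1 := one_add_nsq_pos z
  exact pow_ne_zero _ (by exact_mod_cast h1.ne')

lemma memLp_G_iff {α : ℝ} {s : ℕ} {h : (Fin n → ℂ) → ℂ} (hh : Continuous h) {p : ENNReal}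
    (hp0 : p ≠ 0) (hpt : p ≠ ⊤) :
    MemLp (G α s h) p volume ↔ ∫⁻ z, Psi α p.toReal s h z < ⊤ := by
  have hm : AEStronglyMeasurable (G α s h) volume := (continuous_G α s hh).aestronglyMeasurable
  have h1 : ∫⁻ z, Psi α p.toReal s h z = ∫⁻ z, ‖G α s h z‖ₑ ^ p.toReal := by
    refine lintegral_congr fun z => ?_
    unfold Psi
    rw [← norm_G, ← ENNReal.ofReal_rpow_of_nonneg (norm_nonneg _) ENNReal.toReal_nonneg,
      ofReal_norm]
  rw [h1, ← eLpNorm_lt_top_iff_lintegral_rpow_enorm_lt_top hp0 hpt]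
  exact ⟨fun h => h.2, fun h => ⟨hm, h⟩⟩

lemma memLp_G_top_iff {α : ℝ} {s : ℕ} {h : (Fin n → ℂ) → ℂ} (hh : Continuous h) :
    MemLp (G α s h) ⊤ volume ↔ ∃ B : ℝ, ∀ z, ‖h z‖ * wt α s z ≤ B := by
  constructor
  · intro hmem
    have h1 : eLpNormEssSup (G α s h) volume < ⊤ := by
      have := hmem.2
      rwa [eLpNorm_exponent_top] at this
    refine ⟨(eLpNormEssSup (G α s h) volume).toReal, fun z => ?_⟩
    rw [← norm_G]
    by_contra hcon
    push Not at hcon
    have hopen : IsOpen {w : Fin n → ℂ | (eLpNormEssSup (G α s h) volume).toReal <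
        ‖G α s h w‖} := isOpen_lt continuous_const (continuous_G α s hh).norm
    have hzero : volume {w : Fin n → ℂ | (eLpNormEssSup (G α s h) volume).toReal <
        ‖G α s h w‖} = 0 := by
      have h2 := enorm_ae_le_eLpNormEssSup (G α s h) (volume : Measure (Fin n → ℂ))
      rw [ae_iff] at h2
      refine measure_mono_null ?_ h2
      intro w hw
      have hw' : (eLpNormEssSup (G α s h) volume).toReal < ‖G α s h w‖ := hw
      show ¬ (‖G α s h w‖ₑ ≤ eLpNormEssSup (G α s h) volume)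
      rw [not_le, ← ofReal_norm]
      exact (ENNReal.lt_ofReal_iff_toReal_lt h1.ne).2 hw'
    have := (hopen.measure_eq_zero_iff volume).1 hzero
    exact this.subset hcon
  · rintro ⟨B, hB⟩
    refine memLp_top_of_bound (continuous_G α s hh).aestronglyMeasurable B
      (Eventually.of_forall fun z => ?_)
    rw [norm_G]
    exact hB z

/-- one step: `h` is in the weighted space of order `s` iff `R h` is in that of order `s+1` -/
theorem memLp_step {α : ℝ} (hα : 0 < α) {p : ENNReal} (hp : p ≠ 0) (s : ℕ)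
    {h : (Fin n → ℂ) → ℂ} (hh : Differentiable ℂ h) :
    MemLp (G α s h) p volume ↔ MemLp (G α (s + 1) (radial h)) p volume := by
  have hr := differentiable_radial hh
  by_cases hpt : p = ⊤
  · subst hpt
    rw [memLp_G_top_iff hh.continuous, memLp_G_top_iff hr.continuous]
    exact ⟨forward_top hα s hh, backward_top hα s hh⟩
  · rw [memLp_G_iff hh.continuous hp hpt, memLp_G_iff hr.continuous hp hpt]
    have hq : 0 < p.toReal := ENNReal.toReal_pos hp hpt
    exact ⟨forward hα hq s hh, backward hα hq s hh⟩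

lemma differentiable_iterate {f : (Fin n → ℂ) → ℂ} (hf : Differentiable ℂ f) (N : ℕ) :
    Differentiable ℂ (radial^[N] f) := by
  induction N with
  | zero => exact hf
  | succ N ih =>
    rw [Function.iterate_succ_apply']
    exact differentiable_radial ih

theorem memLp_iterate {α : ℝ} (hα : 0 < α) {p : ENNReal} (hp : p ≠ 0)
    {f : (Fin n → ℂ) → ℂ} (hf : Differentiable ℂ f) (N : ℕ) :
    MemLp (G α 0 f) p volume ↔ MemLp (G α N (radial^[N] f)) p volume := by
  induction N with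
  | zero => rfl
  | succ N ih =>
    rw [Function.iterate_succ_apply', ih]
    exact memLp_step hα hp N (differentiable_iterate hf N)

end Pool.Agent.H959.Fock
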