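import Mathlib

open MeasureTheory Metric Set Filter Topology

namespace Pool.Agent.H959.Fock

/-- multiplication by a unimodular number preserves area -/
lemma measurePreserving_unit_mul (θ : ℝ) :
    MeasurePreserving (fun w : ℂ => circleMap 0 1 θ * w) volume volume := by
  have h : (fun w : ℂ => circleMap 0 1 θ * w) = rotation (Circle.exp θ) := by
    funext w
    simp [circleMap, rotation_apply, Circle.coe_exp]
  rw [h]
  exact (rotation (Circle.exp θ)).measurePreserving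

lemma integral_circle_eq {F : ℂ → ℂ} (hF : Differentiable ℂ F) (w : ℂ) :
    ∫ θ in (0:ℝ)..2 * Real.pi, F (circleMap 0 1 θ * w) = (2 * Real.pi : ℝ) • F 0 := by
  have hd : Differentiable ℂ (fun l : ℂ => F (l * w)) := hF.comp (differentiable_id.mul_const w)
  have h := DiffContOnCl.circleAverage (c := 0) (R := 1) (f := fun l : ℂ => F (l * w))
    hd.diffContOnCl
  rw [Real.circleAverage_def] at h
  simp only [zero_mul] at h
  rw [← h, smul_smul, mul_inv_cancel₀ (by positivity), one_smul]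

lemma submean_zero {F : ℂ → ℂ} (hF : Differentiable ℂ F) (r : ℝ) :
    ‖F 0‖ₑ * volume (closedBall (0:ℂ) r) ≤ ∫⁻ w in closedBall (0:ℂ) r, ‖F w‖ₑ := by
  have h1 : ∀ θ : ℝ, ∫⁻ w in closedBall (0:ℂ) r, ‖F (circleMap 0 1 θ * w)‖ₑ
      = ∫⁻ w in closedBall (0:ℂ) r, ‖F w‖ₑ := by
    intro θ
    have hm := measurePreserving_unit_mul θ
    have he : (fun w : ℂ => circleMap 0 1 θ * w) ⁻¹' closedBall (0:ℂ) r = closedBall (0:ℂ) r := by
      ext w
      simp
    have := hm.setLIntegral_comp_preimage (s := closedBall (0:ℂ) r) measurableSet_closedBall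
      (f := fun w => ‖F w‖ₑ) hF.continuous.enorm.measurable
    rw [he] at this
    exact this
  have h2 : ∫⁻ θ in Ioc (0:ℝ) (2 * Real.pi), ∫⁻ w in closedBall (0:ℂ) r,
      ‖F (circleMap 0 1 θ * w)‖ₑ
      = ENNReal.ofReal (2 * Real.pi) * ∫⁻ w in closedBall (0:ℂ) r, ‖F w‖ₑ := by
    simp only [h1, lintegral_const, Measure.restrict_apply MeasurableSet.univ, univ_inter,
      Real.volume_Ioc, sub_zero]
    rw [mul_comm]
  have hcont : Continuous (fun p : ℝ × ℂ => F (circleMap 0 1 p.1 * p.2)) := by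
    refine hF.continuous.comp ?_
    exact ((continuous_circleMap 0 1).comp continuous_fst).mul continuous_snd
  rw [lintegral_lintegral_swap] at h2
  swap
  · exact (hcont.enorm.measurable).aemeasurable
  have h3 : ∀ w : ℂ, ENNReal.ofReal (2 * Real.pi) * ‖F 0‖ₑ ≤
      ∫⁻ θ in Ioc (0:ℝ) (2 * Real.pi), ‖F (circleMap 0 1 θ * w)‖ₑ := by
    intro w
    have h4 := enorm_integral_le_lintegral_enorm (μ := volume.restrict (Ioc (0:ℝ) (2 * Real.pi)))
      (fun θ : ℝ => F (circleMap 0 1 θ * w))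
    rw [← intervalIntegral.integral_of_le (by positivity), integral_circle_eq hF w,
      enorm_smul] at h4
    refine le_trans (le_of_eq ?_) h4
    congr 1
    rw [Real.enorm_eq_ofReal (by positivity)]
  have h5 : ENNReal.ofReal (2 * Real.pi) * ‖F 0‖ₑ * volume (closedBall (0:ℂ) r) ≤
      ENNReal.ofReal (2 * Real.pi) * ∫⁻ w in closedBall (0:ℂ) r, ‖F w‖ₑ := by
    rw [← h2]
    calc ENNReal.ofReal (2 * Real.pi) * ‖F 0‖ₑ * volume (closedBall (0:ℂ) r)
        = ∫⁻ _ in closedBall (0:ℂ) r, ENNReal.ofReal (2 * Real.pi) * ‖F 0‖ₑ := by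
          rw [setLIntegral_const]
      _ ≤ _ := lintegral_mono fun w => h3 w
  rw [mul_assoc] at h5
  exact (ENNReal.mul_le_mul_iff_right (by positivity) ENNReal.ofReal_ne_top).1 h5

/-- area sub-mean value inequality -/
lemma submean_one {F : ℂ → ℂ} (hF : Differentiable ℂ F) (c : ℂ) (r : ℝ) :
    ‖F c‖ₑ * volume (closedBall c r) ≤ ∫⁻ w in closedBall c r, ‖F w‖ₑ := by
  have h1 := submean_zero (F := fun w => F (c + w)) (hF.comp (differentiable_id.const_add c)) r
  simp only [add_zero] at h1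
  have hm : MeasurePreserving (fun w : ℂ => c + w) volume volume :=
    measurePreserving_add_left volume c
  have he : (fun w : ℂ => c + w) ⁻¹' closedBall c r = closedBall (0:ℂ) r := by
    ext w
    simp
  have h2 := hm.setLIntegral_comp_preimage (s := closedBall c r) measurableSet_closedBall
      (f := fun w => ‖F w‖ₑ) hF.continuous.enorm.measurable
  rw [he] at h2
  rw [h2] at h1
  have h3 : volume (closedBall c r) = volume (closedBall (0:ℂ) r) := by
    rw [Complex.volume_closedBall, Complex.volume_closedBall]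
  rw [h3]
  exact h1

/-- sub-mean value inequality for `|F|^q`, `0 < q ≤ 1` -/
lemma submean_small {q : ℝ} (hq : 0 < q) (hq1 : q ≤ 1) {F : ℂ → ℂ} (hF : Differentiable ℂ F)
    (c : ℂ) {r : ℝ} (hr : 0 < r) :
    ENNReal.ofReal (‖F c‖ ^ q) * ENNReal.ofReal (r ^ 2) ≤
      ENNReal.ofReal ((4 / Real.pi) * (2 ^ (2 / q)) ^ (1 - q)) *
        ∫⁻ w in closedBall c r, ENNReal.ofReal (‖F w‖ ^ q) := by
  set I := ∫⁻ w in closedBall c r, ENNReal.ofReal (‖F w‖ ^ q) with hI
  have hπ : 0 < Real.pi := Real.pi_pos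
  have hC : 0 < (4 / Real.pi) * ((2:ℝ) ^ (2 / q)) ^ (1 - q) := by positivity
  by_cases hIt : I = ⊤
  · rw [hIt, ENNReal.mul_top (by positivity)]
    exact le_top
  -- maximise
  have hφc : ContinuousOn (fun z : ℂ => (r - ‖z - c‖) ^ (2 / q) * ‖F z‖) (closedBall c r) := by
    apply Continuous.continuousOn
    apply Continuous.mul
    · apply Continuous.rpow_const
      · fun_prop
      · intro x; right; positivity
    · exact hF.continuous.norm
  obtain ⟨z0, hz0, hmax⟩ := (isCompact_closedBall c r).exists_isMaxOn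
    ⟨c, mem_closedBall_self hr.le⟩ hφc
  have hmax' : ∀ z ∈ closedBall c r, (r - ‖z - c‖) ^ (2 / q) * ‖F z‖ ≤
    (r - ‖z0 - c‖) ^ (2 / q) * ‖F z0‖ := fun z hz => hmax hz
  have hc := hmax' c (mem_closedBall_self hr.le)
  simp only [sub_self, norm_zero, sub_zero] at hc
  have hz0' : ‖z0 - c‖ ≤ r := by simpa [dist_eq_norm] using hz0
  by_cases hF0 : ‖F c‖ = 0
  · rw [hF0, Real.zero_rpow hq.ne']
    simp
  have hFc : 0 < ‖F c‖ := lt_of_le_of_ne (norm_nonneg _) (Ne.symm hF0)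
  have hpos : 0 < (r - ‖z0 - c‖) ^ (2 / q) * ‖F z0‖ := lt_of_lt_of_le (by positivity) hc
  have hd : 0 < r - ‖z0 - c‖ := by
    rcases (sub_nonneg.2 hz0').lt_or_eq with h | h
    · exact h
    · rw [← h, Real.zero_rpow (by positivity)] at hpos
      simp at hpos
  have hFz0 : 0 < ‖F z0‖ := by
    rcases (norm_nonneg (F z0)).lt_or_eq with h | h
    · exact h
    · rw [← h] at hpos
      simp at hpos
  set δ := (r - ‖z0 - c‖) / 2 with hδ
  have hδ0 : 0 < δ := by positivity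
  have h2δ : r - ‖z0 - c‖ = 2 * δ := by rw [hδ]; ring
  set B := (2:ℝ) ^ (2 / q) * ‖F z0‖ with hB
  have hB0 : 0 < B := by positivity
  have hsub : closedBall z0 δ ⊆ closedBall c r := by
    intro w hw
    rw [mem_closedBall, dist_eq_norm] at hw ⊢
    have : ‖w - c‖ ≤ ‖w - z0‖ + ‖z0 - c‖ := norm_sub_le_norm_sub_add_norm_sub _ _ _
    linarith
  have hFw : ∀ w ∈ closedBall z0 δ, ‖F w‖ ≤ B := by
    intro w hw
    have h1 := hmax' w (hsub hw)
    rw [mem_closedBall, dist_eq_norm] at hw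
    have h2 : ‖w - c‖ ≤ ‖w - z0‖ + ‖z0 - c‖ := norm_sub_le_norm_sub_add_norm_sub _ _ _
    have h3 : δ ≤ r - ‖w - c‖ := by linarith
    have h4 : δ ^ (2 / q) * ‖F w‖ ≤ δ ^ (2 / q) * B := by
      calc δ ^ (2 / q) * ‖F w‖ ≤ (r - ‖w - c‖) ^ (2 / q) * ‖F w‖ := by gcongr
        _ ≤ (r - ‖z0 - c‖) ^ (2 / q) * ‖F z0‖ := h1
        _ = δ ^ (2 / q) * B := by
          rw [h2δ, Real.mul_rpow (by norm_num) hδ0.le, hB]
          ring
    exact le_of_mul_le_mul_left h4 (by positivity)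
  have hFw' : ∀ w ∈ closedBall z0 δ, ‖F w‖ ≤ B ^ (1 - q) * ‖F w‖ ^ q := by
    intro w hw
    rcases (norm_nonneg (F w)).lt_or_eq with h | h
    · calc ‖F w‖ = ‖F w‖ ^ (1 - q) * ‖F w‖ ^ q := by
            rw [← Real.rpow_add h]; simp
        _ ≤ B ^ (1 - q) * ‖F w‖ ^ q := by
            gcongr
            exact hFw w hw
    · rw [← h]
      positivity
  have h1 := submean_one hF z0 δ
  have h2 : ∫⁻ w in closedBall z0 δ, ‖F w‖ₑ ≤ ENNReal.ofReal (B ^ (1 - q)) * I := by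
    calc ∫⁻ w in closedBall z0 δ, ‖F w‖ₑ
        ≤ ∫⁻ w in closedBall z0 δ, ENNReal.ofReal (B ^ (1 - q)) * ENNReal.ofReal (‖F w‖ ^ q) := by
          refine setLIntegral_mono' measurableSet_closedBall fun w hw => ?_
          rw [← ENNReal.ofReal_mul (by positivity), ← ofReal_norm]
          exact ENNReal.ofReal_le_ofReal (hFw' w hw)
      _ = ENNReal.ofReal (B ^ (1 - q)) * ∫⁻ w in closedBall z0 δ, ENNReal.ofReal (‖F w‖ ^ q) := by
          rw [lintegral_const_mul' _ _ ENNReal.ofReal_ne_top]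
      _ ≤ ENNReal.ofReal (B ^ (1 - q)) * I := by
          gcongr
          exact lintegral_mono_set hsub
  have h3 : ‖F z0‖ * (Real.pi * δ ^ 2) ≤ B ^ (1 - q) * I.toReal := by
    rw [← ENNReal.ofReal_le_ofReal_iff (by positivity),
      ENNReal.ofReal_mul (by positivity), ENNReal.ofReal_mul (p := B ^ (1 - q)) (by positivity),
      ENNReal.ofReal_toReal hIt, ofReal_norm]
    refine le_trans (le_of_eq ?_) (h1.trans h2)
    rw [Complex.volume_closedBall, ENNReal.ofReal_mul (by positivity), ENNReal.ofReal_pow hδ0.le]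
    congr 1
    rw [mul_comm]
    congr 1
    rw [← NNReal.coe_real_pi, ENNReal.ofReal_coe_nnreal]
  have h4 : ‖F z0‖ ^ q * (Real.pi * δ ^ 2) ≤ ((2:ℝ) ^ (2 / q)) ^ (1 - q) * I.toReal := by
    have h5 : ‖F z0‖ ^ (1 - q) * (‖F z0‖ ^ q * (Real.pi * δ ^ 2)) ≤
        ‖F z0‖ ^ (1 - q) * (((2:ℝ) ^ (2 / q)) ^ (1 - q) * I.toReal) := by
      calc ‖F z0‖ ^ (1 - q) * (‖F z0‖ ^ q * (Real.pi * δ ^ 2))
          = ‖F z0‖ * (Real.pi * δ ^ 2) := by
            rw [← mul_assoc, ← Real.rpow_add hFz0]; simp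
        _ ≤ B ^ (1 - q) * I.toReal := h3
        _ = _ := by
          rw [hB, Real.mul_rpow (by positivity) (by positivity)]
          ring
    exact le_of_mul_le_mul_left h5 (by positivity)
  have h6 : r ^ 2 * ‖F c‖ ^ q ≤ (2 * δ) ^ 2 * ‖F z0‖ ^ q := by
    have h7 : (r ^ (2 / q) * ‖F c‖) ^ q ≤ ((r - ‖z0 - c‖) ^ (2 / q) * ‖F z0‖) ^ q :=
      Real.rpow_le_rpow (by positivity) hc hq.le
    rw [h2δ, Real.mul_rpow (by positivity) (by positivity),
      Real.mul_rpow (by positivity) (by positivity), ← Real.rpow_mul hr.le,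
      ← Real.rpow_mul (by positivity), div_mul_cancel₀ _ hq.ne', Real.rpow_two, Real.rpow_two] at h7
    exact h7
  have h8 : ‖F c‖ ^ q * r ^ 2 ≤ ((4 / Real.pi) * ((2:ℝ) ^ (2 / q)) ^ (1 - q)) * I.toReal := by
    calc ‖F c‖ ^ q * r ^ 2 ≤ (2 * δ) ^ 2 * ‖F z0‖ ^ q := by linarith
      _ = (4 / Real.pi) * (‖F z0‖ ^ q * (Real.pi * δ ^ 2)) := by field_simp; ring
      _ ≤ (4 / Real.pi) * (((2:ℝ) ^ (2 / q)) ^ (1 - q) * I.toReal) := by gcongr
      _ = _ := by ring
  rw [← ENNReal.ofReal_mul (by positivity), ← ENNReal.ofReal_toReal hIt,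
    ← ENNReal.ofReal_mul (by positivity)]
  exact ENNReal.ofReal_le_ofReal h8

/-- sub-mean value inequality for `|F|^q`, `q > 0` -/
lemma submean {q : ℝ} (hq : 0 < q) : ∃ C : ℝ, 0 < C ∧ ∀ F : ℂ → ℂ, Differentiable ℂ F →
    ∀ (c : ℂ) (r : ℝ), 0 < r → ENNReal.ofReal (‖F c‖ ^ q) * ENNReal.ofReal (r ^ 2) ≤
      ENNReal.ofReal C * ∫⁻ w in closedBall c r, ENNReal.ofReal (‖F w‖ ^ q) := by
  obtain ⟨k, hk⟩ := exists_nat_ge (max q 1)
  have hk1 : (1:ℝ) ≤ k := (le_max_right _ _).trans hk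
  have hkq : q ≤ k := (le_max_left _ _).trans hk
  have hk0 : (0:ℝ) < k := by linarith
  refine ⟨(4 / Real.pi) * (2 ^ (2 / (q / k))) ^ (1 - (q / k)), by positivity, ?_⟩
  intro F hF c r hr
  have h := submean_small (q := q / k) (by positivity) (by rw [div_le_one hk0]; exact hkq)
    (F := fun w => F w ^ k) (hF.pow k) c hr
  have h1 : ∀ w, ‖F w ^ k‖ ^ (q / k) = ‖F w‖ ^ q := by
    intro w
    rw [norm_pow, ← Real.rpow_natCast, ← Real.rpow_mul (norm_nonneg _), mul_div_cancel₀ _ hk0.ne']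
  simp only [h1] at h
  exact h

end Pool.Agent.H959.Fock
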