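import Pool.Agent.H959.Fock.Basic
import Pool.Agent.H959.Fock.SubMean

open MeasureTheory Metric Set Filter Topology

namespace Pool.Agent.H959.Fock

variable {n : ℕ}

lemma measurePreserving_unit_smul (θ : ℝ) :
    MeasurePreserving (fun z : Fin n → ℂ => circleMap 0 1 θ • z) volume volume := by
  have h := volume_preserving_pi (ι := Fin n) (α' := fun _ => ℂ) (β' := fun _ => ℂ)
    (f := fun _ => (fun w : ℂ => circleMap 0 1 θ * w))
    (fun _ => measurePreserving_unit_mul θ)
  exact h

lemma lintegral_smul_real (r : ℝ) (hr : 0 < r) {g : (Fin n → ℂ) → ENNReal} (hg : Measurable g) :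
    ∫⁻ z, g (r • z) = ENNReal.ofReal ((r ^ (2 * n))⁻¹) * ∫⁻ z, g z := by
  have h := Measure.map_addHaar_smul (μ := (volume : Measure (Fin n → ℂ))) hr.ne'
  have hfr : Module.finrank ℝ (Fin n → ℂ) = 2 * n := by
    rw [Module.finrank_pi_fintype]
    simp [mul_comm]
  rw [hfr, abs_of_nonneg (by positivity)] at h
  rw [← smul_eq_mul, ← lintegral_smul_measure, ← h, lintegral_map hg (measurable_const_smul r)]

lemma lintegral_smul_complex (l : ℂ) (hl : l ≠ 0) {g : (Fin n → ℂ) → ENNReal}
    (hg : Measurable g) :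
    ∫⁻ z, g (l • z) = ENNReal.ofReal ((‖l‖ ^ (2 * n))⁻¹) * ∫⁻ z, g z := by
  rw [← lintegral_smul_real ‖l‖ (norm_pos_iff.2 hl) hg]
  have hm := measurePreserving_unit_smul (n := n) (Complex.arg l)
  have h := hm.lintegral_comp (f := fun z => g (‖l‖ • z)) (hg.comp (measurable_const_smul _))
  rw [← h]
  refine lintegral_congr fun z => ?_
  congr 1
  ext k
  simp only [Pi.smul_apply, smul_eq_mul, Complex.real_smul]
  rw [← mul_assoc]
  congr 1
  simp [circleMap, Complex.norm_mul_exp_arg_mul_I]

/-- the constant in the Tonelli-type estimate below -/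
noncomputable def CB (n : ℕ) : ℝ := 2 ^ (2 * n + 4) * (4 * Real.pi)

lemma CB_pos (n : ℕ) : 0 < CB n := by unfold CB; positivity

lemma tonelli_disc {ρ : ℝ} (hρ : 0 < ρ) {Φ : (Fin n → ℂ) → ENNReal} (hΦ : Measurable Φ) :
    ∫⁻ z in {z : Fin n → ℂ | 4 * ρ ≤ nsq z}, ENNReal.ofReal (nsq z ^ 2) *
      ∫⁻ l in closedBall (1:ℂ) (ρ / nsq z), Φ (l • z) ≤
    ENNReal.ofReal (CB n * ρ ^ 2) * ∫⁻ z, Φ z := by
  have hnm : Measurable (nsq : (Fin n → ℂ) → ℝ) := continuous_nsq.measurable
  set S1 : Set ((Fin n → ℂ) × ℂ) := {p | 4 * ρ ≤ nsq p.1 ∧ ‖p.2 - 1‖ * nsq p.1 ≤ ρ} with hS1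
  set S2 : Set ((Fin n → ℂ) × ℂ) := {p | ‖p.2 - 1‖ * nsq p.1 ≤ 2 * ρ} with hS2
  have hS1m : MeasurableSet S1 := by
    apply MeasurableSet.inter
    · exact measurableSet_le measurable_const (hnm.comp measurable_fst)
    · exact measurableSet_le (f := fun p : (Fin n → ℂ) × ℂ => ‖p.2 - 1‖ * nsq p.1)
        (by fun_prop) measurable_const
  have hS2m : MeasurableSet S2 :=
    measurableSet_le (f := fun p : (Fin n → ℂ) × ℂ => ‖p.2 - 1‖ * nsq p.1)
      (by fun_prop) measurable_const
  set K1 : (Fin n → ℂ) → ℂ → ENNReal := fun z l =>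
    S1.indicator (fun p => ENNReal.ofReal (nsq p.1 ^ 2) * Φ (p.2 • p.1)) (z, l) with hK1
  set K2 : (Fin n → ℂ) → ℂ → ENNReal := fun z l =>
    S2.indicator (fun p => ENNReal.ofReal (2 ^ (2 * n + 4) * nsq p.1 ^ 2) * Φ p.1) (z, l) with hK2
  have hK1m : Measurable (Function.uncurry K1) := by
    have : Function.uncurry K1 =
      S1.indicator (fun p => ENNReal.ofReal (nsq p.1 ^ 2) * Φ (p.2 • p.1)) := by
      ext p; rfl
    rw [this]
    refine Measurable.indicator ?_ hS1m
    refine Measurable.mul (by fun_prop) (hΦ.comp ?_)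
    exact (continuous_snd.smul continuous_fst).measurable
  have hK2m : Measurable (Function.uncurry K2) := by
    have : Function.uncurry K2 =
      S2.indicator (fun p => ENNReal.ofReal (2 ^ (2 * n + 4) * nsq p.1 ^ 2) * Φ p.1) := by
      ext p; rfl
    rw [this]
    refine Measurable.indicator ?_ hS2m
    exact Measurable.mul (by fun_prop) (hΦ.comp measurable_fst)
  have step1 : ∫⁻ z in {z : Fin n → ℂ | 4 * ρ ≤ nsq z}, ENNReal.ofReal (nsq z ^ 2) *
      ∫⁻ l in closedBall (1:ℂ) (ρ / nsq z), Φ (l • z) ≤ ∫⁻ z, ∫⁻ l, K1 z l := by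
    rw [← lintegral_indicator (measurableSet_le measurable_const hnm)]
    refine lintegral_mono fun z => ?_
    by_cases hz : 4 * ρ ≤ nsq z
    · rw [indicator_of_mem (by exact hz)]
      have hz0 : 0 < nsq z := by linarith
      rw [← lintegral_const_mul' _ _ ENNReal.ofReal_ne_top,
        ← lintegral_indicator measurableSet_closedBall]
      refine lintegral_mono fun l => ?_
      by_cases hl : l ∈ closedBall (1:ℂ) (ρ / nsq z)
      · rw [indicator_of_mem hl]
        have : (z, l) ∈ S1 := by
          refine ⟨hz, ?_⟩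
          rw [mem_closedBall, dist_eq_norm, le_div_iff₀ hz0] at hl
          exact hl
        simp only [hK1]
        rw [indicator_of_mem this]
      · rw [indicator_of_notMem hl]
        exact bot_le
    · rw [indicator_of_notMem (by exact hz)]
      exact bot_le
  have step2 : ∀ l : ℂ, ∫⁻ z, K1 z l ≤ ∫⁻ z, K2 z l := by
    intro l
    by_cases hl : ‖l - 1‖ ≤ 1 / 4
    · have hl1 : 3 / 4 ≤ ‖l‖ := by
        have := norm_sub_norm_le (1:ℂ) l
        rw [norm_one, norm_sub_rev] at this
        linarith
      have hl2 : ‖l‖ ≤ 5 / 4 := by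
        have := norm_sub_norm_le l (1:ℂ)
        rw [norm_one] at this
        linarith
      have hl0 : l ≠ 0 := by
        rw [← norm_pos_iff]; linarith
      set k : (Fin n → ℂ) → ENNReal := {w : Fin n → ℂ | ‖l - 1‖ * nsq w ≤ 2 * ρ}.indicator
        (fun w => ENNReal.ofReal (2 ^ 4 * nsq w ^ 2) * Φ w) with hk
      have hkm : Measurable k := by
        refine Measurable.indicator (Measurable.mul (by fun_prop) hΦ) ?_
        exact measurableSet_le (by fun_prop) measurable_const
      calc ∫⁻ z, K1 z l ≤ ∫⁻ z, k (l • z) := by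
            refine lintegral_mono fun z => ?_
            by_cases hz : (z, l) ∈ S1
            · simp only [hK1]
              rw [indicator_of_mem hz]
              have hz1 : 4 * ρ ≤ nsq z := hz.1
              have hz2 : ‖l - 1‖ * nsq z ≤ ρ := hz.2
              have hz0 : 0 < nsq z := by linarith
              have hm : l • z ∈ {w : Fin n → ℂ | ‖l - 1‖ * nsq w ≤ 2 * ρ} := by
                show ‖l - 1‖ * nsq (l • z) ≤ 2 * ρ
                rw [nsq_smul]
                calc ‖l - 1‖ * (‖l‖ ^ 2 * nsq z) = ‖l‖ ^ 2 * (‖l - 1‖ * nsq z) := by ring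
                  _ ≤ (5 / 4) ^ 2 * ρ := by gcongr
                  _ ≤ 2 * ρ := by nlinarith
              rw [hk, indicator_of_mem hm]
              gcongr
              rw [nsq_smul]
              have h3 : (1:ℝ) ≤ 2 ^ 4 * (‖l‖ ^ 2) ^ 2 := by
                calc (1:ℝ) ≤ 2 ^ 4 * ((3 / 4) ^ 2) ^ 2 := by norm_num
                  _ ≤ 2 ^ 4 * (‖l‖ ^ 2) ^ 2 := by gcongr
              calc nsq z ^ 2 = 1 * nsq z ^ 2 := by ring
                _ ≤ (2 ^ 4 * (‖l‖ ^ 2) ^ 2) * nsq z ^ 2 := by gcongr
                _ = 2 ^ 4 * (‖l‖ ^ 2 * nsq z) ^ 2 := by ring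
            · simp only [hK1]
              rw [indicator_of_notMem hz]
              exact bot_le
        _ = ENNReal.ofReal ((‖l‖ ^ (2 * n))⁻¹) * ∫⁻ z, k z := lintegral_smul_complex l hl0 hkm
        _ ≤ ENNReal.ofReal (2 ^ (2 * n)) * ∫⁻ z, k z := by
            gcongr
            rw [inv_le_comm₀ (by positivity) (by positivity), ← inv_pow]
            gcongr
            linarith
        _ = ∫⁻ z, K2 z l := by
            rw [← lintegral_const_mul' _ _ ENNReal.ofReal_ne_top]
            refine lintegral_congr fun z => ?_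
            by_cases hz : ‖l - 1‖ * nsq z ≤ 2 * ρ
            · have h1 : (z, l) ∈ S2 := hz
              have h2 : z ∈ {w : Fin n → ℂ | ‖l - 1‖ * nsq w ≤ 2 * ρ} := hz
              simp only [hK2, hk]
              rw [indicator_of_mem h1, indicator_of_mem h2, ← mul_assoc,
                ← ENNReal.ofReal_mul (by positivity)]
              congr 2
              ring
            · have h1 : (z, l) ∉ S2 := hz
              have h2 : z ∉ {w : Fin n → ℂ | ‖l - 1‖ * nsq w ≤ 2 * ρ} := hz
              simp only [hK2, hk]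
              rw [indicator_of_notMem h1, indicator_of_notMem h2, mul_zero]
    · have : ∀ z, K1 z l = 0 := by
        intro z
        apply indicator_of_notMem
        rintro ⟨h1, h2⟩
        simp only at h1 h2
        apply hl
        have h3 : ‖l - 1‖ * (4 * ρ) ≤ ρ := by
          calc ‖l - 1‖ * (4 * ρ) ≤ ‖l - 1‖ * nsq z := by gcongr
            _ ≤ ρ := h2
        have h4 : (‖l - 1‖ * 4) * ρ ≤ 1 * ρ := by linarith
        have h5 := le_of_mul_le_mul_right h4 hρ
        linarith
      simp [this]
  calc _ ≤ ∫⁻ z, ∫⁻ l, K1 z l := step1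
    _ = ∫⁻ l, ∫⁻ z, K1 z l := lintegral_lintegral_swap hK1m.aemeasurable
    _ ≤ ∫⁻ l, ∫⁻ z, K2 z l := lintegral_mono step2
    _ = ∫⁻ z, ∫⁻ l, K2 z l := (lintegral_lintegral_swap hK2m.aemeasurable).symm
    _ ≤ ∫⁻ z, ENNReal.ofReal (CB n * ρ ^ 2) * Φ z := by
        refine lintegral_mono fun z => ?_
        rcases (nsq_nonneg z).lt_or_eq with hz0 | hz0
        · have h1 : ∀ l, K2 z l = (closedBall (1:ℂ) (2 * ρ / nsq z)).indicator
            (fun _ => ENNReal.ofReal (2 ^ (2 * n + 4) * nsq z ^ 2) * Φ z) l := by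
            intro l
            simp only [hK2]
            by_cases hl : ‖l - 1‖ * nsq z ≤ 2 * ρ
            · have h2 : (z, l) ∈ S2 := hl
              have h3 : l ∈ closedBall (1:ℂ) (2 * ρ / nsq z) := by
                rw [mem_closedBall, dist_eq_norm, le_div_iff₀ hz0]
                exact hl
              rw [indicator_of_mem h2, indicator_of_mem h3]
            · have h2 : (z, l) ∉ S2 := hl
              have h3 : l ∉ closedBall (1:ℂ) (2 * ρ / nsq z) := by
                rw [mem_closedBall, dist_eq_norm, le_div_iff₀ hz0]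
                exact hl
              rw [indicator_of_notMem h2, indicator_of_notMem h3]
          simp only [h1]
          rw [lintegral_indicator measurableSet_closedBall, setLIntegral_const,
            Complex.volume_closedBall, mul_right_comm]
          gcongr
          have hpi : (NNReal.pi : ENNReal) = ENNReal.ofReal Real.pi := by
            rw [← NNReal.coe_real_pi, ENNReal.ofReal_coe_nnreal]
          rw [hpi, ← ENNReal.ofReal_pow (by positivity), ← ENNReal.ofReal_mul (by positivity),
            ← ENNReal.ofReal_mul (by positivity)]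
          apply ENNReal.ofReal_le_ofReal
          unfold CB
          apply le_of_eq
          field_simp
          norm_num
        · have h1 : ∀ l, K2 z l = 0 := by
            intro l
            simp only [hK2]
            by_cases h2 : (z, l) ∈ S2
            · rw [indicator_of_mem h2]
              simp [← hz0]
            · rw [indicator_of_notMem h2]
          simp [h1]
    _ = _ := by rw [lintegral_const_mul' _ _ ENNReal.ofReal_ne_top]

end Pool.Agent.H959.Fock
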