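import Pool.Agent.H959.Fock.Scaling

open MeasureTheory Metric Set Filter Topology

namespace Pool.Agent.H959.Fock

variable {n : ℕ}

/-- the weight `e^{-α|z|^2/2} / (1+|z|^2)^s` -/
noncomputable def wt (α : ℝ) (s : ℕ) (z : Fin n → ℂ) : ℝ :=
  Real.exp (-(α * nsq z / 2)) / (1 + nsq z) ^ s

lemma one_add_nsq_pos (z : Fin n → ℂ) : 0 < 1 + nsq z := by
  have := nsq_nonneg z; linarith

lemma wt_pos (α : ℝ) (s : ℕ) (z : Fin n → ℂ) : 0 < wt α s z := by
  have := one_add_nsq_pos z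
  unfold wt; positivity

lemma continuous_wt (α : ℝ) (s : ℕ) : Continuous (wt α s : (Fin n → ℂ) → ℝ) := by
  unfold wt
  refine Continuous.div ?_ ?_ ?_
  · have := continuous_nsq (n := n)
    fun_prop
  · have := continuous_nsq (n := n)
    fun_prop
  · intro z
    have := one_add_nsq_pos z
    positivity

lemma wt_succ (α : ℝ) (s : ℕ) (z : Fin n → ℂ) : wt α s z = (1 + nsq z) * wt α (s + 1) z := by
  have := one_add_nsq_pos z
  unfold wt
  field_simp
  ring

/-- constant for comparing the weights at nearby points -/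
noncomputable def Cw (α : ℝ) (s : ℕ) (K : ℝ) : ℝ :=
  Real.exp (α * (2 * K + K ^ 2) / 2) * (1 + (2 * K + K ^ 2)) ^ s

lemma Cw_pos (α : ℝ) (s : ℕ) {K : ℝ} (hK : 0 ≤ K) : 0 < Cw α s K := by
  unfold Cw; positivity

lemma wt_le {α : ℝ} (hα : 0 < α) (s : ℕ) {K : ℝ} (hK : 0 ≤ K) {z : Fin n → ℂ} (hz : 1 ≤ nsq z)
    {l : ℂ} (hl : ‖l - 1‖ ≤ K / nsq z) : wt α s z ≤ Cw α s K * wt α s (l • z) := by
  have hz0 : 0 < nsq z := by linarith
  have hl2 : ‖l‖ ≤ 1 + K / nsq z := by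
    have := norm_sub_norm_le l (1:ℂ)
    rw [norm_one] at this
    linarith
  have hv : nsq (l • z) ≤ nsq z + (2 * K + K ^ 2) := by
    rw [nsq_smul]
    calc ‖l‖ ^ 2 * nsq z ≤ (1 + K / nsq z) ^ 2 * nsq z := by gcongr
      _ = nsq z + 2 * K + K ^ 2 / nsq z := by field_simp; ring
      _ ≤ nsq z + 2 * K + K ^ 2 / 1 := by gcongr
      _ = nsq z + (2 * K + K ^ 2) := by ring
  have hv0 := nsq_nonneg (l • z)
  unfold wt Cw
  rw [div_le_iff₀ (by positivity)]
  have h1 : Real.exp (-(α * nsq z / 2)) ≤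
      Real.exp (α * (2 * K + K ^ 2) / 2) * Real.exp (-(α * nsq (l • z) / 2)) := by
    rw [← Real.exp_add]
    apply Real.exp_le_exp.2
    nlinarith
  have h2 : (1 + nsq (l • z)) ^ s ≤ ((1 + (2 * K + K ^ 2)) * (1 + nsq z)) ^ s := by
    gcongr
    nlinarith [mul_nonneg (by positivity : 0 ≤ 2 * K + K ^ 2) hz0.le]
  calc Real.exp (-(α * nsq z / 2))
      ≤ Real.exp (α * (2 * K + K ^ 2) / 2) * Real.exp (-(α * nsq (l • z) / 2)) * 1 := by
        rw [mul_one]; exact h1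
    _ ≤ Real.exp (α * (2 * K + K ^ 2) / 2) * Real.exp (-(α * nsq (l • z) / 2)) *
        (((1 + (2 * K + K ^ 2)) * (1 + nsq z)) ^ s / (1 + nsq (l • z)) ^ s) := by
        gcongr
        rw [one_le_div (by positivity)]
        exact h2
    _ = _ := by
        rw [mul_pow]
        field_simp

lemma wt_decay {α : ℝ} (hα : 0 < α) (s : ℕ) {a : ℝ} (ha : 0 < a) {z : Fin n → ℂ}
    (hz : a ≤ nsq z) {l : ℂ} (hl : ‖l‖ ≤ 1 - a / nsq z) :
    wt α s z ≤ Real.exp (-(α * a / 2)) * wt α s (l • z) := by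
  have hz0 : 0 < nsq z := by linarith
  have hv : nsq (l • z) ≤ nsq z - a := by
    rw [nsq_smul]
    calc ‖l‖ ^ 2 * nsq z ≤ (1 - a / nsq z) ^ 2 * nsq z := by gcongr
      _ = nsq z - 2 * a + a * (a / nsq z) := by field_simp; ring
      _ ≤ nsq z - 2 * a + a * 1 := by
        gcongr
        rw [div_le_one hz0]
        exact hz
      _ = nsq z - a := by ring
  have hv0 := nsq_nonneg (l • z)
  unfold wt
  have h1 : Real.exp (-(α * nsq z / 2)) ≤
      Real.exp (-(α * a / 2)) * Real.exp (-(α * nsq (l • z) / 2)) := by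
    rw [← Real.exp_add]
    apply Real.exp_le_exp.2
    nlinarith
  rw [← mul_div_assoc]
  gcongr
  linarith

/-- the integrand -/
noncomputable def Psi (α q : ℝ) (s : ℕ) (h : (Fin n → ℂ) → ℂ) (z : Fin n → ℂ) : ENNReal :=
  ENNReal.ofReal ((‖h z‖ * wt α s z) ^ q)

lemma measurable_Psi {α q : ℝ} {s : ℕ} {h : (Fin n → ℂ) → ℂ} (hh : Continuous h) :
    Measurable (Psi α q s h) := by
  unfold Psi
  apply ENNReal.measurable_ofReal.comp
  apply Measurable.pow_const
  exact (hh.norm.mul (continuous_wt α s)).measurable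

lemma lintegral_Psi_lt_top {α q : ℝ} (hq : 0 < q) {s : ℕ} {h : (Fin n → ℂ) → ℂ}
    (hh : Continuous h) (R : ℝ) : ∫⁻ z in {z | nsq z ≤ R}, Psi α q s h z < ⊤ := by
  have hc : Continuous (fun z : Fin n → ℂ => ((‖h z‖ * wt α s z) ^ q).toNNReal) := by
    apply continuous_real_toNNReal.comp
    exact (hh.norm.mul (continuous_wt α s)).rpow_const (fun _ => Or.inr hq.le)
  exact setLIntegral_lt_top_of_isCompact (isCompact_nsq_le R).measure_lt_top.ne
    (isCompact_nsq_le R) hc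

lemma Psi_mul {α q : ℝ} {s : ℕ} {h : (Fin n → ℂ) → ℂ} (z : Fin n → ℂ) :
    Psi α q s h z = ENNReal.ofReal (wt α s z ^ q) * ENNReal.ofReal (‖h z‖ ^ q) := by
  unfold Psi
  have := wt_pos α s z
  rw [Real.mul_rpow (norm_nonneg _) this.le, mul_comm, ENNReal.ofReal_mul (by positivity)]

/-- the local average that dominates -/
noncomputable def Avg (α q : ℝ) (s : ℕ) (K : ℝ) (h : (Fin n → ℂ) → ℂ) (z : Fin n → ℂ) : ENNReal :=
  ENNReal.ofReal (nsq z ^ 2) * ∫⁻ l in closedBall (1:ℂ) (K / nsq z), Psi α q s h (l • z)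

lemma measurable_Avg {α q : ℝ} {s : ℕ} {K : ℝ} {h : (Fin n → ℂ) → ℂ} (hh : Continuous h) :
    Measurable (Avg α q s K h) := by
  have hnm : Measurable (nsq : (Fin n → ℂ) → ℝ) := continuous_nsq.measurable
  set S : Set ((Fin n → ℂ) × ℂ) := {p | dist p.2 1 ≤ K / nsq p.1} with hS
  have hSm : MeasurableSet S :=
    measurableSet_le (f := fun p : (Fin n → ℂ) × ℂ => dist p.2 1)
      (g := fun p : (Fin n → ℂ) × ℂ => K / nsq p.1) (by fun_prop) (by fun_prop)
  have hm : Measurable (S.indicator (fun p => Psi α q s h (p.2 • p.1))) := by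
    refine Measurable.indicator ((measurable_Psi hh).comp ?_) hSm
    exact (continuous_snd.smul continuous_fst).measurable
  have h1 : Avg α q s K h = fun z => ENNReal.ofReal (nsq z ^ 2) *
      ∫⁻ l, (S.indicator (fun p => Psi α q s h (p.2 • p.1))) (z, l) := by
    funext z
    unfold Avg
    congr 1
    rw [← lintegral_indicator measurableSet_closedBall]
    refine lintegral_congr fun l => ?_
    by_cases hl : dist l 1 ≤ K / nsq z
    · have h2 : (z, l) ∈ S := hl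
      have h3 : l ∈ closedBall (1:ℂ) (K / nsq z) := hl
      rw [indicator_of_mem h2, indicator_of_mem h3]
    · have h2 : (z, l) ∉ S := hl
      have h3 : l ∉ closedBall (1:ℂ) (K / nsq z) := hl
      rw [indicator_of_notMem h2, indicator_of_notMem h3]
  rw [h1]
  refine Measurable.mul (by fun_prop) ?_
  exact hm.lintegral_prod_right'

lemma weighted_submean {α : ℝ} (hα : 0 < α) {q : ℝ} (hq : 0 < q) (s : ℕ) {K : ℝ} (hK : 0 ≤ K) :
    ∃ C : ℝ, 0 < C ∧ ∀ (F : (Fin n → ℂ) → ℂ), Differentiable ℂ F → ∀ z : Fin n → ℂ, 1 ≤ nsq z →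
      ∀ τ : ℂ, ‖τ - 1‖ ≤ K / nsq z →
      ENNReal.ofReal ((‖F (τ • z)‖ * wt α s z) ^ q) ≤
        ENNReal.ofReal C * Avg α q s (K + 1) F z := by
  obtain ⟨C0, hC0, hsub⟩ := submean hq
  have hCw := Cw_pos α s (K := K + 1) (by linarith)
  refine ⟨C0 * Cw α s (K + 1) ^ q, by positivity, ?_⟩
  intro F hF z hz τ hτ
  have hz0 : 0 < nsq z := by linarith
  have hw := wt_pos α s z
  have h1 := hsub (fun l => F (l • z)) (differentiable_slice hF z) τ (1 / nsq z) (by positivity)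
  have hball : closedBall τ (1 / nsq z) ⊆ closedBall (1:ℂ) ((K + 1) / nsq z) := by
    intro l hl
    rw [mem_closedBall, dist_eq_norm] at hl ⊢
    have : ‖l - 1‖ ≤ ‖l - τ‖ + ‖τ - 1‖ := norm_sub_le_norm_sub_add_norm_sub _ _ _
    rw [add_div]
    linarith
  have h2 : ENNReal.ofReal (wt α s z ^ q) *
      ∫⁻ l in closedBall τ (1 / nsq z), ENNReal.ofReal (‖F (l • z)‖ ^ q) ≤
      ENNReal.ofReal (Cw α s (K + 1) ^ q) *
        ∫⁻ l in closedBall (1:ℂ) ((K + 1) / nsq z), Psi α q s F (l • z) := by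
    calc ENNReal.ofReal (wt α s z ^ q) *
        ∫⁻ l in closedBall τ (1 / nsq z), ENNReal.ofReal (‖F (l • z)‖ ^ q)
        ≤ ENNReal.ofReal (wt α s z ^ q) *
        ∫⁻ l in closedBall (1:ℂ) ((K + 1) / nsq z), ENNReal.ofReal (‖F (l • z)‖ ^ q) :=
          mul_le_mul' le_rfl (lintegral_mono_set hball)
      _ = ∫⁻ l in closedBall (1:ℂ) ((K + 1) / nsq z),
          ENNReal.ofReal (wt α s z ^ q) * ENNReal.ofReal (‖F (l • z)‖ ^ q) := by
          rw [lintegral_const_mul' _ _ ENNReal.ofReal_ne_top]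
      _ ≤ ∫⁻ l in closedBall (1:ℂ) ((K + 1) / nsq z),
          ENNReal.ofReal (Cw α s (K + 1) ^ q) * Psi α q s F (l • z) := by
          refine setLIntegral_mono' measurableSet_closedBall fun l hl => ?_
          rw [Psi_mul, ← mul_assoc]
          refine mul_le_mul' ?_ le_rfl
          rw [← ENNReal.ofReal_mul (by positivity)]
          apply ENNReal.ofReal_le_ofReal
          rw [mem_closedBall, dist_eq_norm] at hl
          rw [← Real.mul_rpow hCw.le (wt_pos _ _ _).le]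
          gcongr
          exact wt_le hα s (by linarith) hz hl
      _ = _ := by rw [lintegral_const_mul' _ _ ENNReal.ofReal_ne_top]
  have h3 : ENNReal.ofReal ((1 / nsq z) ^ 2) * ENNReal.ofReal (nsq z ^ 2) = 1 := by
    rw [← ENNReal.ofReal_mul (by positivity), ← ENNReal.ofReal_one]
    congr 1
    field_simp
  calc ENNReal.ofReal ((‖F (τ • z)‖ * wt α s z) ^ q)
      = ENNReal.ofReal (wt α s z ^ q) * ENNReal.ofReal (‖F (τ • z)‖ ^ q) *
        (ENNReal.ofReal ((1 / nsq z) ^ 2) * ENNReal.ofReal (nsq z ^ 2)) := by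
        rw [h3, mul_one, Real.mul_rpow (norm_nonneg _) hw.le, mul_comm,
          ← ENNReal.ofReal_mul (by positivity)]
    _ = ENNReal.ofReal (nsq z ^ 2) * (ENNReal.ofReal (wt α s z ^ q) *
        (ENNReal.ofReal (‖F (τ • z)‖ ^ q) * ENNReal.ofReal ((1 / nsq z) ^ 2))) := by ring
    _ ≤ ENNReal.ofReal (nsq z ^ 2) * (ENNReal.ofReal (wt α s z ^ q) *
        (ENNReal.ofReal C0 *
          ∫⁻ l in closedBall τ (1 / nsq z), ENNReal.ofReal (‖F (l • z)‖ ^ q))) := by
        gcongr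
    _ = ENNReal.ofReal (nsq z ^ 2) * (ENNReal.ofReal C0 * (ENNReal.ofReal (wt α s z ^ q) *
          ∫⁻ l in closedBall τ (1 / nsq z), ENNReal.ofReal (‖F (l • z)‖ ^ q))) := by ring
    _ ≤ ENNReal.ofReal (nsq z ^ 2) * (ENNReal.ofReal C0 * (ENNReal.ofReal (Cw α s (K + 1) ^ q) *
        ∫⁻ l in closedBall (1:ℂ) ((K + 1) / nsq z), Psi α q s F (l • z))) := by
        gcongr
    _ = _ := by
        rw [ENNReal.ofReal_mul hC0.le, Avg]
        ring

lemma lintegral_Avg_le {α q : ℝ} {s : ℕ} {K : ℝ} (hK : 0 < K) {h : (Fin n → ℂ) → ℂ}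
    (hh : Continuous h) :
    ∫⁻ z in {z : Fin n → ℂ | 4 * K ≤ nsq z}, Avg α q s K h z ≤
      ENNReal.ofReal (CB n * K ^ 2) * ∫⁻ z, Psi α q s h z :=
  tonelli_disc hK (measurable_Psi hh)

end Pool.Agent.H959.Fock
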